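import Mathlib
import Pool.Agent.Helper60.Rel.Final

/-!
# Project LT (MP_d6acc2_an): statements and complete paper proofs

Theorem: with `B = B_b(1)` (integral means exponent of the derivative of bounded univalent
functions) one has for every `m ≥ 1`
`-(1-B) ≤ alpha_m* ≤ -(1-B)(1-((2-B)/(2+B))^(2(m-1)))`; so `alpha_m* → -(1-B)`.

Conventions. `𝔻 = ball 0 1`, `IM g r = ∫_0^{2π} |g'(r e^{it})| dt`.  Available on main and free to use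
(import the file): Bieberbach and Koebe: `Pool.Agent.Helper60.Rel.bieb : Pool.Agent.Helper46.Rel.Bieb`
(`Pool.Agent.Helper60.Rel.GFun`), `Pool.Agent.Helper46.Rel.koebe_of bieb`; nonvanishing derivative of
an injective analytic function and openness of the image:
`Pool.TU.X5.deriv_ne_zero_of_injOn`, `Pool.TU.X5.isOpen_image_of_injOn`
(`Pool.Agent.Helper71.TU.X5aux`); analytic logarithm on the disc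
`Pool.Agent.Helper60.Rel.exists_log_disc`; area formula
`MeasureTheory.lintegral_image_eq_lintegral_abs_det_fderiv_mul` (see the proof of `area_bound` in
`Pool.Agent.Helper60.Rel.Area`).
-/

set_option autoImplicit false

namespace Pool.Agent.Helper51.LT

open Complex MeasureTheory Set Metric Filter Topology
open scoped Real ENNReal
open Pool.Agent.Helper60.Rel (LH tc Admissible ClassS LogData om th)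

/-! ## Definitions -/

/-- analytic and injective on `U` -/
def Un (f : ℂ → ℂ) (U : Set ℂ) : Prop := DifferentiableOn ℂ f U ∧ InjOn f U

/-- univalent in the unit disc and bounded by one -/
def BU (g : ℂ → ℂ) : Prop := Un g (ball 0 1) ∧ ∀ z ∈ ball (0 : ℂ) 1, ‖g z‖ ≤ 1

/-- the integral mean of the derivative -/
noncomputable def IM (g : ℂ → ℂ) (r : ℝ) : ℝ :=
  ∫ t in (0 : ℝ)..(2 * π), ‖deriv g (circleMap 0 r t)‖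

/-- `β` bounds the growth of the integral means of every bounded univalent function -/
def Bd (β : ℝ) : Prop :=
  ∀ g, BU g → ∃ C : ℝ, ∀ r : ℝ, 0 < r → r < 1 → IM g r ≤ C * (1 - r) ^ (-β)

/-- uniform bound -/
def Unf (δ C₀ : ℝ) : Prop :=
  ∀ g, BU g → ∀ r : ℝ, 0 < r → r < 1 → IM g r ≤ C₀ * (1 - r) ^ (-δ)

/-- the negation of all uniform bounds with exponent `γ` -/
def HU (γ : ℝ) : Prop :=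
  ∀ C : ℝ, ∃ (g : ℂ → ℂ) (r : ℝ), BU g ∧ 0 < r ∧ r < 1 ∧ C * (1 - r) ^ (-γ) < IM g r

/-- `B_b(1)` -/
noncomputable def Bb : ℝ := sInf {β : ℝ | Bd β}

/-- `N`-fold symmetry -/
def Sy (N : ℕ) (f : ℂ → ℂ) : Prop :=
  ∀ ω z : ℂ, ω ^ N = 1 → z ∈ ball (0 : ℂ) 1 → f (ω * z) = ω * f z

/-- `q` holds for all analytic functions which are close to `f` on a smaller disc -/
def Rob (q : (ℂ → ℂ) → Prop) (f : ℂ → ℂ) : Prop :=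
  ∃ η > (0 : ℝ), ∃ r : ℝ, 0 ≤ r ∧ r < 1 ∧ ∀ F : ℂ → ℂ, DifferentiableOn ℂ F (ball 0 1) →
    (∀ z : ℂ, ‖z‖ ≤ r → ‖F z - f z‖ ≤ η) → q F

/-- the class for the first gliding hump -/
def PP (f : ℂ → ℂ) : Prop :=
  (∃ R : ℝ, 1 < R ∧ Un f (ball 0 R)) ∧ f 0 = 0 ∧ ∀ z ∈ ball (0 : ℂ) 1, ‖f z‖ ≤ 1

/-- the event for the first gliding hump -/
def QP (β : ℝ) (j : ℕ) (F : ℂ → ℂ) : Prop :=
  ∃ r : ℝ, 0 < r ∧ r < 1 ∧ (j : ℝ) * (1 - r) ^ (-β) < IM F r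

/-- the class for the second gliding hump -/
def PL (N : ℕ) (f : ℂ → ℂ) : Prop :=
  (∃ R : ℝ, 1 < R ∧ Un f (ball 0 R)) ∧ f 0 = 0 ∧ Sy N f

/-- the event for the second gliding hump: a large coefficient -/
def QL (α : ℝ) (j : ℕ) (F : ℂ → ℂ) : Prop :=
  ∃ T : ℕ, j ≤ T ∧ (j : ℝ) * (T : ℝ) ^ α < ‖tc F T‖

/-! ## Koebe and distortion -/

/-- KOE (about 60 lines).  Let `ρ = min ‖w - z‖ d`.  If `ρ = 0` or `f'(z) = 0` the left side is `0`.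
Otherwise `φ(x) = (f(z + ρx) - f(z))/(ρ f'(z))` is univalent on `𝔻`, `φ(0) = 0`, `φ'(0) = 1`, and
`w ∉ ball z ρ` (as `‖w-z‖ ≥ ρ`), so by injectivity on `U` the value `(f(w) - f(z))/(ρ f'(z))` is not taken by
`φ` on `𝔻` and Koebe's quarter theorem gives the claim. -/
def StKoe : Prop := ∀ (f : ℂ → ℂ) (U : Set ℂ) (z : ℂ) (d : ℝ), 0 < d → ball z d ⊆ U → IsOpen U →
  Un f U → ∀ w ∈ U, ‖deriv f z‖ * min ‖w - z‖ d ≤ 4 * ‖f w - f z‖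

/-- D1 (about 40 lines).  `f'(z) ≠ 0` (nonvanishing).  `φ(x) = (f(z + dx) - f(z))/(d f'(z))` is in the
class `S`, `φ''(0) = d f''(z)/f'(z)`, and `‖φ''(0)‖ ≤ 4` by Bieberbach. -/
def StD1 : Prop := ∀ (f : ℂ → ℂ) (z : ℂ) (d : ℝ), 0 < d → Un f (ball z d) →
  d * ‖deriv (deriv f) z‖ ≤ 4 * ‖deriv f z‖

/-- D2 (about 90 lines).  `f' ≠ 0` on the ball; let `L` be a primitive of `f''/f'` there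
(`DifferentiableOn.isExactOn_ball`), so `f'(z) = f'(tz) exp(L(z) - L(tz))` (`f' e^{-L}` is constant).
`τ ↦ L(τz)` has derivative of norm `≤ 4‖z‖/(R - τ‖z‖)` by D1 on `ball (τz) (R - τ‖z‖)`; so
`‖L(z) - L(tz)‖ ≤ 4 log((R - t‖z‖)/(R - ‖z‖))`
(`image_norm_le_of_norm_deriv_right_le_deriv_boundary` with `B(τ) = -4 log(R - τ‖z‖) + 4 log(R - t‖z‖)`).
Take exponentials.  Hypotheses: hD1. -/
def StD2 : Prop := ∀ (f : ℂ → ℂ) (R : ℝ) (z : ℂ) (t : ℝ), 0 < R → Un f (ball 0 R) → ‖z‖ < R →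
  0 ≤ t → t ≤ 1 →
  (R - ‖z‖) ^ 4 * ‖deriv f (t * z)‖ ≤ (R - t * ‖z‖) ^ 4 * ‖deriv f z‖ ∧
  (R - ‖z‖) ^ 4 * ‖deriv f z‖ ≤ (R - t * ‖z‖) ^ 4 * ‖deriv f (t * z)‖

/-- D3 (about 30 lines): D2 with `t = 0` for `x ↦ f(z + x)` on `ball 0 d`, at the point `w - z`.
Hypotheses: hD2. -/
def StD3 : Prop := ∀ (f : ℂ → ℂ) (z w : ℂ) (d : ℝ), 0 < d → Un f (ball z d) → ‖w - z‖ < d →
  (d - ‖w - z‖) ^ 4 * ‖deriv f w‖ ≤ d ^ 4 * ‖deriv f z‖ ∧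
  (d - ‖w - z‖) ^ 4 * ‖deriv f z‖ ≤ d ^ 4 * ‖deriv f w‖

/-! ## Symmetrisation -/

/-- SYM (about 120 lines).  `g'(0) ≠ 0`; `ψ = dslope g 0` is analytic and zero free on `𝔻` (`g(w) ≠ 0` for
`w ≠ 0` by injectivity), so `ψ = ψ(0) e^ℓ` with `ℓ` analytic, `ℓ(0) = 0` (`exists_log_disc` for `ψ/ψ(0)`).
Put `λ = ‖g'(0)‖^{1/N}` and `h(z) = λ z exp(ℓ(z^N)/N)`.  Then `h(0) = 0`, `h'(0) = λ`,
`h(z)^N = λ^N z^N e^{ℓ(z^N)} = c g(z^N)` with the constant `c = ‖g'(0)‖/g'(0)` of modulus one.  So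
`‖h‖^N = ‖g(z^N)‖ ≤ 1`.  Symmetry: `(ωz)^N = z^N`.  Injective: `h(z) = h(z')` gives `c g(z^N) = c g(z'^N)`,
`z^N = z'^N`, the exponential factors agree and are nonzero, `z = z'`.  Differentiating
`h^N = c g(z^N)`: `N h^{N-1} h' = c N z^{N-1} g'(z^N)`, take norms and use `‖h‖ ≤ 1`.
Hypotheses: none. -/
def StSym : Prop := ∀ (g : ℂ → ℂ) (N : ℕ), BU g → g 0 = 0 → 1 ≤ N →
  ∃ h : ℂ → ℂ, BU h ∧ h 0 = 0 ∧ Sy N h ∧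
    deriv h 0 = ((‖deriv g 0‖ ^ (1 / (N : ℝ)) : ℝ) : ℂ) ∧
    ∀ z ∈ ball (0 : ℂ) 1, ‖z‖ ^ (N - 1) * ‖deriv g (z ^ N)‖ ≤ ‖deriv h z‖

/-- IMS (about 60 lines).  With `ρ = r^{1/N}`: `IM h ρ ≥ ∫ ρ^{N-1} |g'(r e^{iNt})| dt ≥ r ∫_0^{2π} |g'(r e^{iNt})| dt`
(`ρ^{N-1} ≥ ρ^N = r`), and `∫_0^{2π} F(Nt) dt = ∫_0^{2π} F(t) dt` for `2π`-periodic continuous `F`.
Hypotheses: none. -/
def StIms : Prop := ∀ (g h : ℂ → ℂ) (N : ℕ) (r : ℝ), BU g → BU h → 1 ≤ N → 0 < r → r < 1 →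
  (∀ z ∈ ball (0 : ℂ) 1, ‖z‖ ^ (N - 1) * ‖deriv g (z ^ N)‖ ≤ ‖deriv h z‖) →
  r * IM g r ≤ IM h (r ^ (1 / (N : ℝ)))

/-- HAR (about 70 lines).  `φ = dslope h 0` satisfies `φ(0) = λ`, `‖φ‖ ≤ 1` (Schwarz:
`Complex.norm_dslope_le_div_of_mapsTo_ball` or similar).  If `λ < 1`: `m = (φ - λ)/(1 - λφ)` maps `𝔻` to the
closed disc, `m(0) = 0`, so `‖m(z)‖ ≤ ‖z‖`.  `φ - λ = m (1 - λφ) = m ((1 - λ²) - λ(φ - λ))`, so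
`‖φ - λ‖ (1 - ‖z‖) ≤ ‖z‖ (1 - λ²)` and `‖φ - 1‖ ≤ (1-λ) + ‖z‖(1-λ²)/(1-‖z‖) ≤ 2(1-λ)/(1-‖z‖)`.  Finally
`h(z) - z = z(φ(z) - 1)`.  If `λ = 1` then `h(z) = z` by the equality case of Schwarz's lemma, or let
`λ' < 1` tend to `1` in the argument with `φ` replaced by `λ' φ`.  Hypotheses: none. -/
def StHar : Prop := ∀ (h : ℂ → ℂ) (lam : ℝ), BU h → h 0 = 0 → deriv h 0 = (lam : ℂ) → 0 < lam →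
  lam ≤ 1 → ∀ z ∈ ball (0 : ℂ) 1, (1 - ‖z‖) * ‖h z - z‖ ≤ 2 * (1 - lam)

/-- IMB (about 25 lines).  Cauchy: `|g'(z)| ≤ 1/(1-|z|)` for `g` bounded by one
(`Complex.norm_deriv_le_of_forall_mem_sphere_norm_le` on circles of radius `< 1 - |z|`), integrate.
Hypotheses: none. -/
def StImb : Prop := ∀ (g : ℂ → ℂ) (r : ℝ), BU g → 0 < r → r < 1 → IM g r ≤ 2 * π / (1 - r)

/-- HUMP (about 150 lines).  Given `N₀, A, K`; we may assume `A ≥ 1`, `K ≥ 1`.  Take `g₀, r` from `HU γ` with a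
constant `C` chosen at the end; by IMB and `(1-r)^{-γ} ≥ 1` we get `C < 2π/(1-r)`, so `1 - r < 2π/C ≤ 1/2`
(`C ≥ 4π`).  `g = (g₀ - g₀(0))/2` is in `BU`, `g(0) = 0`, `IM g r = IM g₀ r/2 ≥ C/2 ≥ 1`.  By D2
(`R = 1, t = 0`) `|g'(z)| ≤ |g'(0)| (1-r)^{-4}` on `|z| = r`, so `1 ≤ 2π |g'(0)| (1-r)^{-4}` and
`log(1/|g'(0)|) ≤ 2 + 4 log(1/(1-r))`; also `|g'(0)| ≤ 1` (Schwarz).  Put
`N = N₀ ⌈A (2 + 4 log(1/(1-r)))⌉`, `h` from SYM, `λ = |g'(0)|^{1/N}`, `ρ = r^{1/N}`.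
`1 - λ ≤ (1/N) log(1/|g'(0)|) ≤ 1/A`;  `1 - ρ ≤ (1/N) log(1/r) ≤ 1/N ≤ 1/A` (`r ≥ 1/2`);
`1 - ρ ≥ (1-r)/N` (Bernoulli: `ρ^N = r ≥ 1 - N(1-ρ)`).  `IM h ρ ≥ r IM g r ≥ (C/4)(1-r)^{-γ}` (IMS), and
`K (1-ρ)^{-γ'} ≤ K N^{γ'} (1-r)^{-γ'}`.  With `x = 1/(1-r) ≥ 1`: `N ≤ A₂ (1 + log x)`, and
`(1 + log x)^{γ'} ≤ C₃ x^{γ-γ'}`, so `C ≥ 4 K A₂^{γ'} C₃ + 4π + 2` suffices.  `N₀`-fold symmetry: `ω^{N₀} = 1`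
implies `ω^N = 1`.  Hypotheses: hD2 hSym hIms hImb. -/
def StHump : Prop := ∀ γ' γ : ℝ, 0 ≤ γ' → γ' < γ → HU γ → ∀ (N₀ : ℕ) (A K : ℝ), 1 ≤ N₀ →
  ∃ (h : ℂ → ℂ) (ρ lam : ℝ), BU h ∧ h 0 = 0 ∧ Sy N₀ h ∧ 0 < ρ ∧ ρ < 1 ∧ A * (1 - ρ) ≤ 1 ∧
    0 < lam ∧ lam ≤ 1 ∧ deriv h 0 = (lam : ℂ) ∧ A * (1 - lam) ≤ 1 ∧
    K * (1 - ρ) ^ (-γ') < IM h ρ

/-! ## Gliding hump -/

/-- GH (about 180 lines), an abstract completeness argument.  Construct `f_0 = f₀, f_1, f_2, …` with `P f_k`,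
numbers `η_k > 0`, `r_k ∈ [0,1)` such that every analytic `F` on `𝔻` with `‖F - f_{k+1}‖ ≤ η_k` on
`‖z‖ ≤ r_k` satisfies `q k`; and budgets `b_k > 0`, radii `R_k < 1` with `b_0 ≤ η`,
`b_{k+1} ≤ min(b_k, η_k)/2`, `R_0 ≥ 1/2`, `R_{k+1} ≥ max(R_k, r_k, 1 - 1/(k+2))`; choose `f_{k+1}` with
`‖f_{k+1} - f_k‖ ≤ b_k/2` on `‖z‖ ≤ R_k` (then `η_k, r_k` from `Rob`, then `b_{k+1}, R_{k+1}`).
Then on `‖z‖ ≤ R_k` all later differences are summable: `∑_{i ≥ k} b_i/2 ≤ b_k` (as `b_{i+1} ≤ b_i/2`), so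
`f_k` converges uniformly on compact subsets of `𝔻` (`R_k → 1`), the limit `F` is analytic
(`TendstoLocallyUniformlyOn.differentiableOn`), and for `‖z‖ ≤ r_k ≤ R_{k+1}`:
`‖F - f_{k+1}‖ ≤ b_{k+1} ≤ η_k`, so `q k F`.  For `‖z‖ ≤ 1/2 ≤ R_0`: `‖F - f₀‖ ≤ b_0 ≤ η`.
Hypotheses: none. -/
def StGH : Prop := ∀ (P : (ℂ → ℂ) → Prop) (q : ℕ → (ℂ → ℂ) → Prop) (f₀ : ℂ → ℂ),
  (∀ f, P f → DifferentiableOn ℂ f (ball 0 1)) → P f₀ →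
  (∀ f, P f → ∀ (η r : ℝ) (j : ℕ), 0 < η → r < 1 →
    ∃ f₁, P f₁ ∧ (∀ z : ℂ, ‖z‖ ≤ r → ‖f₁ z - f z‖ ≤ η) ∧ Rob (q j) f₁) →
  ∀ η : ℝ, 0 < η → ∃ F : ℂ → ℂ, DifferentiableOn ℂ F (ball 0 1) ∧ (∀ j, q j F) ∧
    (∀ z : ℂ, ‖z‖ ≤ 1 / 2 → ‖F z - f₀ z‖ ≤ η) ∧
    ∃ s : ℕ → ℂ → ℂ, (∀ k, P (s k)) ∧
      ∀ z ∈ ball (0 : ℂ) 1, Tendsto (fun k => s k z) atTop (𝓝 (F z))

/-- INJ (about 100 lines).  Let `c = min_{‖z‖ ≤ 1} |f'(z)| > 0` (nonvanishing, compactness) and `d = min(R-1, 1)`.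
By KOE with `U = ball 0 R` and `ball z d ⊆ U`: `|f(w) - f(z)| ≥ (c/4) min(|w-z|, d) ≥ (c d/8)|w-z|` for
`‖z‖, ‖w‖ ≤ 1`.  If `‖F - f‖ ≤ η` on `‖z‖ ≤ r := (1+ρ)/2` then `e = F - f` satisfies `‖e'‖ ≤ 2η/(1-ρ)` on
`‖z‖ ≤ ρ` (Cauchy on discs of radius `(1-ρ)/2`; take slightly smaller ones if needed), so
`|e(z) - e(w)| ≤ (2η/(1-ρ)) |z-w|` (convexity).  Choose `η` with `2η/(1-ρ) < cd/8`.
Hypotheses: hKoe. -/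
def StInj : Prop := ∀ (f : ℂ → ℂ) (R ρ : ℝ), 1 < R → Un f (ball 0 R) → 0 ≤ ρ → ρ < 1 →
  Rob (fun F => InjOn F (closedBall 0 ρ)) f

/-- STP (about 150 lines).  `0 ≤ β < γ`, `HU γ`, `f` in the class `PP`.  `c = min_{‖z‖≤1} |f'| > 0`,
`Λ = ` Lipschitz constant of `f` on `closedBall 0 1` (convex; `|f'|` bounded on it).  HUMP with
`N₀ = 1`, `γ' = β`, large `A, K` gives `h, ρ, λ`.  Put `ρ₁ = (1+ρ)/2`, `f₁(z) = f(h(ρ₁ z))`.  `f₁` is analytic and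
injective on `ball 0 (1/ρ₁)`, `f₁(0) = 0`, `‖f₁‖ ≤ 1` on `𝔻` (`‖h‖ < 1` inside, or `f` is continuous up to
`‖z‖ = 1`).  Closeness on `‖z‖ ≤ r`: `‖h(ρ₁z) - z‖ ≤ 2(1-λ)/(1-r) + (1-ρ) ≤ (2/(1-r) + 1)/A` by HAR.  Event: at
`r' = ρ/ρ₁`: `IM f₁ r' = ρ₁ ∫ |f'(h(ρe^{it}))| |h'(ρe^{it})| dt ≥ (c/2) IM h ρ ≥ (c/2) K (1-ρ)^{-β}` and
`1 - r' ≥ (1-ρ)/2`, so `(1-r')^{-β} ≤ 2^β (1-ρ)^{-β}`; with `K ≥ 2^{β+1}(j+1)/c` we get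
`IM f₁ r' ≥ (j+1)(1-r')^{-β}`.  Robust: if `‖F - f₁‖ ≤ η'` on `‖z‖ ≤ (1+r')/2` then
`|F' - f₁'| ≤ 2η'/(1-r')` on `|z| = r'` (or slightly weaker), so `IM F r' ≥ IM f₁ r' - 4πη'/(1-r')
> j (1-r')^{-β}` for small `η'` (`(1-r')^{-β} ≥ 1`).  Hypotheses: hHump hHar. -/
def StStp : Prop := ∀ β γ : ℝ, 0 ≤ β → β < γ → HU γ → ∀ f : ℂ → ℂ, PP f →
  ∀ (η r : ℝ) (j : ℕ), 0 < η → r < 1 →
  ∃ f₁, PP f₁ ∧ (∀ z : ℂ, ‖z‖ ≤ r → ‖f₁ z - f z‖ ≤ η) ∧ Rob (QP β j) f₁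

/-- NN (about 30 lines).  For `g(z) = z`: `IM g r = 2π`; if `β < 0` then `C (1-r)^{-β} → 0` as `r → 1`.
Hypotheses: none. -/
def StNn : Prop := ∀ β : ℝ, Bd β → 0 ≤ β

/-- UNF (about 80 lines): pointwise implies uniform.  Suppose `Bd β`, `β < γ` (`β ≥ 0` by NN) and that no `C₀`
works.  Then `HU γ` (the case of negative constants is trivial).  Apply GH with `P = PP`, `f₀ = id`
(`PP id`: `Un id (ball 0 2)`), `q j F = QP β j F ∧ InjOn F (closedBall 0 (1 - 1/(j+2)))`; the step is STP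
combined with INJ (`Rob` of a conjunction: take the smaller `η` and the larger radius).  The limit `F` is
analytic, injective on `𝔻` (any two points lie in some `closedBall 0 (1 - 1/(j+2))`), `‖F‖ ≤ 1` on `𝔻`
(pointwise limit), so `BU F` and `Bd β` gives `C` with `IM F r ≤ C (1-r)^{-β}` for all `r`; for `j ≥ C` this
contradicts `QP β j F`.  Hypotheses: hNn hGH hStp hInj. -/
def StUnf : Prop := ∀ β γ : ℝ, Bd β → β < γ → ∃ C₀ : ℝ, 1 ≤ C₀ ∧ Unf γ C₀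

/-- HALF (about 120 lines).  For `z` with `|z| = r`, `d = (1-r)/2`: mean value property of `(g')²` on the disc:
`|g'(z)|² ≤ (1/(π d²)) ∫_{ball z d} |g'|² dA`; and integrate over the circle by Cauchy-Schwarz
`IM g r ≤ (2π)^{1/2} (∫ |g'(re^{it})|² dt)^{1/2}`.  Simplest: with `a_k` the Taylor coefficients of `g'`
(or any route you like; the statement is `∫_0^{2π} |g'(re^{it})|² dt ≤ C/(1-r)`, which follows from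
`∫_𝔻 |g'|² dA = area of g(𝔻) ≤ π` (area formula) and the monotonicity in `ρ` of
`M(ρ) = ∫_0^{2π} |g'(ρe^{it})|² dt` : `M(r) ((1 - r)/2) r ≤ ∫_r^{1} M(ρ) ρ dρ ≤ π`; monotonicity by Parseval or
because `|F(rz)|²` integrals increase: for `F` analytic, `M(r) ≤ M(ρ)` from the Poisson/Cauchy formula).  For
`r < 1/2` use IMB.  Only the existence of the constant matters.  Hypotheses: hImb. -/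
def StHalf : Prop := ∃ C : ℝ, Unf (1 / 2) C

/-! ## Lower bound: the Carleson-Jones perturbation -/

/-- POL (about 180 lines).  `f' ≠ 0` on `ball 0 (1+d)`; let `φ` be analytic there with `φ² = f'` (square root
via a primitive of `f''/f'`), `ψ = 1/φ`.  `φ(ωz) = φ(z)` on `𝔻` for `ω^N = 1`: `f(ωz) = ωf(z)` gives
`f'(ωz) = f'(z)`, the quotient `φ(ωz)/φ(z)` has square one and value `1` at `0`, so it is constant (connected).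
By D2 (`R = 1+d`, `t = 0`) on `|z| ≤ 1 + d/2`: `|φ(0)|(d/4)² ≤ |φ(z)| ≤ |φ(0)|(4/d)²`.  Cauchy on
`|z| = 1 + d/2`: the Taylor coefficients satisfy `|a_k| ≤ |φ(0)|(4/d)²(1+d/2)^{-k}`,
`|b_k| ≤ |φ(0)|^{-1}(4/d)²(1+d/2)^{-k}`; `a_k = b_k = 0` unless `N ∣ k`.  For the Taylor polynomials
`φ_L, ψ_L` of degree `≤ L` on `|z| = 1`: `|φ - φ_L| ≤ |φ(0)|(4/d)²(2/d)(1+d/2)^{-L}` and the same for `ψ`, and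
`(1+d/2)^{-L} ≤ e^{-dL/4} ≤ e^{-25} d^{25}` since `L ≥ (100/d)(1 + log(1/d))`.  Let
`p(z) = φ_L^*(z) ψ_L(z)`, `φ_L^*(z) = ∑_{k≤L} conj(a_k) z^{L-k}`; on `|z| = 1`: `z^{-L}p = conj(φ_L) ψ_L`, and
`f' z^{-L} p - |f'| = φ²(conj(φ_L)ψ_L - conj(φ)ψ)` has modulus `≤ |f'| (|φ_L-φ||ψ_L| + |φ||ψ_L-ψ|) ≤ |f'|/4`.
`p(ωz) = p(z)` because only powers divisible by `N` occur (`N ∣ L`).  `‖p(z)‖ ≤ 5/4` for `‖z‖ = 1` follows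
(`|p| = |z^{-L}p|`, divide by `|f'|`), and for `‖z‖ ≤ 1` by the maximum principle.  Hypotheses: hD2. -/
def StPol : Prop := ∀ (d : ℝ) (f : ℂ → ℂ) (N L : ℕ), 0 < d → d ≤ 1 → Un f (ball 0 (1 + d)) → Sy N f →
  1 ≤ N → N ∣ L → 100 / d * (1 + Real.log (1 / d)) ≤ L →
  ∃ p : Polynomial ℂ,
    (∀ z : ℂ, ‖z‖ = 1 →
      ‖deriv f z * p.eval z * (z ^ L)⁻¹ - (‖deriv f z‖ : ℂ)‖ ≤ 1 / 4 * ‖deriv f z‖) ∧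
    (∀ z : ℂ, ‖z‖ ≤ 1 → ‖p.eval z‖ ≤ 5 / 4) ∧
    (∀ ω z : ℂ, ω ^ N = 1 → p.eval (ω * z) = p.eval z)

/-- CJU (about 180 lines).  Step 1: for `‖z‖ ≤ 1`: `‖u(z)‖ ≤ (82/2000)/M * ‖f'(z)‖`.  Indeed
`u(z) = ∫_0^1 u'(tz) z dt`, `‖u'(tz)‖ ≤ (1/2000)(5/4) (t‖z‖)^M ‖f'(tz)‖`, and D2 with `R = 1+d` gives
`‖f'(tz)‖ ≤ ‖f'(z)‖ ((1+d-t‖z‖)/(1+d-‖z‖))⁴ ≤ ‖f'(z)‖ (1 + (‖z‖ - t‖z‖)/d)⁴` (as `1+d-‖z‖ ≥ d`).  With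
`x = ‖z‖(1-t)`, `(t‖z‖)^M = (‖z‖ - x)^M ≤ (1-x)^M ≤ e^{-Mx}`:
`‖u(z)‖ ≤ (1/1600) ‖f'(z)‖ ∫_0^∞ e^{-Mx}(1+x/d)⁴ dx ≤ (1/1600)‖f'(z)‖ (1/M) ∫_0^∞ e^{-y}(1+y)⁴ dy`
(`Md ≥ 1`), and the last integral is `65` (a primitive of `e^{-y}(1+y)^4` is
`-e^{-y}(y⁴+8y³+30y²+64y+65)`).  Step 2: `z₁ ≠ z₂` in `closedBall 0 1`.  If `|z₁-z₂| ≤ d/2`: on the segment
`‖f'(w)‖ ≤ 16‖f'(z₁)‖` (D3 on `ball z₁ d`), so `|u(z₁)-u(z₂)| ≤ (1/1600)16‖f'(z₁)‖|z₁-z₂|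
< ‖f'(z₁)‖|z₁-z₂|/4 ≤ |f(z₁)-f(z₂)|` (KOE).  If `|z₁-z₂| > d/2`: KOE at `z₁` and at `z₂` gives
`|f(z₁)-f(z₂)| ≥ (d/8) max_i ‖f'(z_i)‖`, while
`|u(z₁)-u(z₂)| ≤ 2 (65/1600)(1/M) max_i ‖f'(z_i)‖ ≤ 0.0813 d max` (`1/M ≤ d`), which is smaller than `d/8`
(`f' ≠ 0`).  Step 3 (second claim): for `‖z‖ ≤ r < 1`: `u(z) = ∫_0^1 u'(tz) z dt` and
`‖u'(w)‖ ≤ r^M S/1600` for `‖w‖ ≤ r` where `S` bounds `‖f'‖` on `closedBall 0 r`.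
Hypotheses: hKoe hD2 hD3. -/
def StCJU : Prop := ∀ (d : ℝ) (f u p : ℂ → ℂ) (M : ℕ), 0 < d → d ≤ 1 → Un f (ball 0 (1 + d)) →
  1 ≤ (M : ℝ) * d → (∀ z : ℂ, ‖z‖ ≤ 1 → ‖p z‖ ≤ 5 / 4) →
  u 0 = 0 → (∀ z ∈ ball (0 : ℂ) (1 + d), HasDerivAt u (1 / 2000 * deriv f z * z ^ M * p z) z) →
  InjOn (fun z => f z + u z) (closedBall 0 1) ∧
  ∀ r S : ℝ, 0 ≤ r → r < 1 → (∀ z : ℂ, ‖z‖ ≤ r → ‖deriv f z‖ ≤ S) →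
    ∀ z : ℂ, ‖z‖ ≤ r → ‖u z‖ ≤ r ^ M * S

/-- TCF (about 60 lines): Cauchy's formula for the Taylor coefficients on circles.
`tc F n = iteratedDeriv n F 0 / n!`.  See `Pool.Agent.Helper46.Rel.Coeff` for similar lemmas, or use
`DifferentiableOn.analyticAt`/`Complex.iteratedDeriv...` with `cauchyPowerSeries`.  Hypotheses: none. -/
def StTcf : Prop := ∀ (F : ℂ → ℂ) (r : ℝ) (n : ℕ), 0 < r → DifferentiableOn ℂ F (closedBall 0 r) →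
  (∃ R : ℝ, r < R ∧ DifferentiableOn ℂ F (ball 0 R)) →
  tc F n = (2 * π)⁻¹ * ∫ t in (0 : ℝ)..(2 * π), F (circleMap 0 r t) * (circleMap 0 r t ^ n)⁻¹

/-- TCD (about 25 lines): `tc (F') n = (n+1) tc F (n+1)` (`iteratedDeriv_succ'`).  And
`tc (z ↦ F(ρz)) n = ρ^n tc F n` for `0 < ρ ≤ 1` (`iteratedDeriv_const_mul` or TCF); and `tc (c F) = c tc F`.
Hypotheses: none. -/
def StTcd : Prop :=
  (∀ (F : ℂ → ℂ) (n : ℕ), tc (deriv F) n = (n + 1) * tc F (n + 1)) ∧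
  (∀ (F : ℂ → ℂ) (ρ : ℝ) (n : ℕ), 0 < ρ → ρ ≤ 1 → DifferentiableOn ℂ F (ball 0 1) →
    tc (fun z => F (ρ * z)) n = (ρ : ℂ) ^ n * tc F n) ∧
  (∀ (F : ℂ → ℂ) (c : ℂ) (n : ℕ), DifferentiableOn ℂ F (ball 0 1) →
    tc (fun z => c * F z) n = c * tc F n)

/-- CJC (about 120 lines).  `T = M + L + 1`.  `T tc(f+u) T = tc (f'+u') (T-1)` (TCD), and by TCF with `r = 1`
(`f' + u'` is analytic on `ball 0 (1+d)`): `tc (u') (T-1) = (2π)⁻¹ ∫ (1/2000) f' z^M p z^{-(M+L)} dt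
= (2π)⁻¹ (1/2000) ∫ f' p z^{-L} dt`, whose real part is
`≥ (2π)⁻¹(1/2000)(3/4) ∫ |f'(e^{it})| dt`.  And `|tc(f') (T-1)| = T |tc f T| ≤ T b (1+d)^{-T}` (TCF on circles
of radius `r < 1+d`, let `r → 1+d`).  `3/(4·2·2000) = 3/16000`.  Hypotheses: hTcf hTcd. -/
def StCJC : Prop := ∀ (d b : ℝ) (f u p : ℂ → ℂ) (M L : ℕ), 0 < d → d ≤ 1 →
  DifferentiableOn ℂ f (ball 0 (1 + d)) → (∀ z ∈ ball (0 : ℂ) (1 + d), ‖f z‖ ≤ b) →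
  (∀ z : ℂ, ‖z‖ = 1 → ‖deriv f z * p z * (z ^ L)⁻¹ - (‖deriv f z‖ : ℂ)‖ ≤ 1 / 4 * ‖deriv f z‖) →
  (∀ z ∈ ball (0 : ℂ) (1 + d), HasDerivAt u (1 / 2000 * deriv f z * z ^ M * p z) z) →
  3 / 16000 / π * IM f 1 - ((M + L + 1 : ℕ) : ℝ) * b * (1 + d) ^ (-((M + L + 1 : ℕ) : ℝ))
    ≤ ((M + L + 1 : ℕ) : ℝ) * ‖tc (fun z => f z + u z) (M + L + 1)‖

/-- STL (about 200 lines).  `c = min_{‖z‖≤1}|f'| > 0`, `b ≥ 1` a bound of `|f|` on `closedBall 0 1`, `Λ` a Lipschitz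
constant there.  HUMP with a `γ'`, `max(0, 1+α) < γ' < γ`, `N₀ = N`, large `A, K`: `h, ρ, λ`.  Let
`f₂(z) = f(h(ρz))`, `d = 1-ρ`: `f₂` is analytic and injective on `ball 0 (1/ρ) ⊇ ball 0 (1+d)`, bounded by
`b`, `N`-fold symmetric, `f₂(0) = 0`, `IM f₂ 1 = ρ∫|f'(h)||h'(ρe^{it})|dt ≥ (c/2) K d^{-γ'}` (`ρ ≥ 1/2`).
`L = N ⌈(100/d)(1+log(1/d))⌉ = M`, `p` from POL, `u` a primitive of `(1/2000) f₂' z^M p` on `ball 0 (1+d)` with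
`u(0) = 0` (`isExactOn_ball.with_val_at`), `f₃ = f₂ + u`, `T = 2L+1`.  `f₃` is injective on `closedBall 0 1` by
CJU.  `f₄(z) = f₃(r₃z)` with `r₃ < 1`, `r₃^T ≥ 1/2`, `1 - r₃ ≤ 1/A`.  `f₄` is in the class `PL N`: on
`ball 0 (1/r₃)`; symmetric: `u(ωz) = ωu(z)` (both sides vanish at `0` and have the derivative
`(1/2000) ω f₂'(z) z^M p(z)`, since `ω^M = 1`, `f₂'(ωz) = f₂'(z)`).  By CJC
`T|tc f₄ T| ≥ (1/2)[(3/(32000π)) c K d^{-γ'} - T b (1+d)^{-T}]`, `T(1+d)^{-T} ≤ T e^{-dT/2} ≤ 2` (since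
`dT ≥ 200(1+log(1/d))`, `T ≤ 700 N/d²`), and `T^{1+α} ≤ C₆ d^{-γ'}` with `C₆` depending on `N, α, γ'`
(`T ≤ (700N/d)(1+log(1/d))` and `1+α < γ'`; if `1+α ≤ 0` trivial).  So for `K` large
`|tc f₄ T| ≥ (j+1) T^α`, and `T ≥ 1/d ≥ A ≥ j`.  Closeness on `‖z‖ ≤ r`: `‖h(ρr₃z) - z‖ ≤ 2(1-λ)/(1-r) +
(1-ρ) + (1-r₃)` (HAR), times `Λ`; `‖u(r₃z)‖ ≤ r^M b/(1-r)·(const)` (second part of CJU with `S` from Cauchy's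
estimate for `f₂`), tends to `0` as `A → ∞` because `M ≥ 1/d ≥ A`.  Robust: `|tc F T - tc f₄ T| ≤ 2^T η'` if
`‖F - f₄‖ ≤ η'` on `‖z‖ ≤ 1/2` (TCF).  Hypotheses: hHump hHar hPol hCJU hTcf hTcd hCJC. -/
def StStl : Prop := ∀ (α γ : ℝ) (N : ℕ), 1 ≤ N → 0 < γ → 1 + α < γ → HU γ → ∀ f : ℂ → ℂ, PL N f →
  ∀ (η r : ℝ) (j : ℕ), 0 < η → r < 1 →
  ∃ f₁, PL N f₁ ∧ (∀ z : ℂ, ‖z‖ ≤ r → ‖f₁ z - f z‖ ≤ η) ∧ Rob (QL α j) f₁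

/-- LOF (about 90 lines).  GH with `P = PL N`, `f₀ = id`, `q j F = QL α' j F ∧ InjOn F (closedBall 0 (1-1/(j+2)))`
(`α' = α`), the step from STL and INJ.  The limit `F` is analytic, injective, `Sy N`, `F(0) = 0`, and
`|F'(0) - 1| ≤ 1/2` if `η = 1/4` (Cauchy on `|z| = 1/2`).  `f = F/F'(0)` is in `ClassS`, `Sy N f`,
`tc f T = tc F T/F'(0)`, `|F'(0)| ≤ 2`; use the event with index `2j`.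
Hypotheses: hGH hStl hInj hTcd. -/
def StLof : Prop := ∀ (α γ : ℝ) (N : ℕ), 1 ≤ N → 0 < γ → 1 + α < γ → HU γ →
  ∃ f : ℂ → ℂ, ClassS f ∧ Sy N f ∧ ∀ j : ℕ, QL α j f

/-- LOA (about 110 lines).  Let `N = m+1` and let `f` be from LOF.  `Sy N f` gives `tc f k = 0` unless
`k ≡ 1 mod N` (TCF/TCD with `ω = e^{2πi/N}`: `ω^k tc f k = ω tc f k`).  Suppose `α` is admissible; take `k = 1` and
the constant `K`.  For `j ≥ 2m+2` the event gives `T ≥ j` with `j T^α < |tc f T|`; `tc f T ≠ 0` so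
`T ≡ 1 mod N` and `tc f (T-i) = 0` for `1 ≤ i ≤ m`.  With `n = T - m ≥ 1`, `j = 0` in the relation:
`4^{-m} |tc f T| ≤ |c_m tc f T| = |∑_{i≤m} c_i tc f (n+i)| ≤ K n^α ≤ |K| 2^{|α|} T^α`
(`T/2 ≤ n ≤ T`).  So `j < 4^m |K| 2^{|α|}` for all `j ≥ 2m+2`, a contradiction.
Hypotheses: hLof hTcf hTcd. -/
def StLoa : Prop := ∀ (m : ℕ) (α γ : ℝ), 1 ≤ m → 0 < γ → 1 + α < γ → HU γ → ¬ Admissible m α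

/-! ## Upper bound: local means of the logarithm -/

/-- ANN (about 70 lines).  Polar coordinates (`Complex.lintegral_comp_polarCoord_symm`): the left side is at most
`∫_{1-4s}^{1-s/10} IM g ρ ρ dρ ≤ 4s · C₀ (s/10)^{-δ} ≤ 40 C₀ s^{1-δ}` (`10^δ ≤ 10`).  Hypotheses: none. -/
def StAnn : Prop := ∀ (δ C₀ s : ℝ) (g : ℂ → ℂ), 0 ≤ δ → δ ≤ 1 → 0 ≤ C₀ → Unf δ C₀ → BU g → 0 < s →
  s ≤ 1 / 8 → ∫⁻ z in {z : ℂ | 1 - 4 * s ≤ ‖z‖ ∧ ‖z‖ ≤ 1 - s / 10}, ENNReal.ofReal ‖deriv g z‖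
    ≤ ENNReal.ofReal (40 * C₀ * s ^ (1 - δ))

/-- INV (about 60 lines).  The inverse `ψ = invFunOn Φ 𝔻` is analytic and injective on `ball (Φ z) 19` (open
mapping: continuity of the inverse; `HasDerivAt.of_local_left_inverse`, `Φ' ≠ 0`; see the private lemmas
`k2_inv_cont, k2_inv_deriv` in `Pool.Agent.Helper71.TU.K2`), `ψ'(Φ z) = 1/Φ'(z)`.  Koebe's quarter theorem for
`x ↦ (ψ(Φ z + 19x) - z)/(19 ψ'(Φ z))`: a point `w` with `‖w‖ = 1`, `‖w - z‖ = 1 - ‖z‖` (`w = z/‖z‖`, or `w = 1` if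
`z = 0`) is not in `𝔻`, so it is not a value of `ψ`, hence `19 ‖ψ'(Φ z)‖/4 ≤ ‖w - z‖ = 1 - ‖z‖`.
Hypotheses: none. -/
def StInv : Prop := ∀ (Φ : ℂ → ℂ) (z : ℂ), Un Φ (ball 0 1) → z ∈ ball (0 : ℂ) 1 →
  ball (Φ z) 19 ⊆ Φ '' ball 0 1 → 4 ≤ ‖deriv Φ z‖ * (1 - ‖z‖)

/-- ARE (about 60 lines).  Area formula: the first integral is the area of
`Φ(𝔻 ∩ {‖Φ - w‖ ≤ 1}) ⊆ closedBall w 1`.  Second: Cauchy-Schwarz, area of `𝔻` is `π`.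
Hypotheses: none. -/
def StAre : Prop := ∀ (Φ : ℂ → ℂ) (w : ℂ), Un Φ (ball 0 1) →
  ∫⁻ z in {z : ℂ | ‖z‖ < 1 ∧ ‖Φ z - w‖ ≤ 1}, ENNReal.ofReal (‖deriv Φ z‖ ^ 2) ≤ ENNReal.ofReal π ∧
  ∫⁻ z in {z : ℂ | ‖z‖ < 1 ∧ ‖Φ z - w‖ ≤ 1}, ENNReal.ofReal ‖deriv Φ z‖ ≤ ENNReal.ofReal π

/-- PT (about 110 lines).  Let `Λ = log(1/(1-ρ)) > 0` and suppose that every `v` with `‖v‖ ≤ ρ`,
`‖Φ v - w₀‖ ≤ 100` satisfies `‖Φ'(v)‖(1-‖v‖)Λ < 38`.  Case A: `‖Φ 0 - w₀‖ < 60` (so `v₁ ≠ 0`).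
`F(t) = Φ(t v₁) - Φ(0)`, `B(t) = (38/Λ) log(1/(1-t‖v₁‖))` on `[0,1]`, `B ≤ 38`.  Where `‖F(t)‖ = B(t)` we have
`‖Φ(tv₁) - w₀‖ < 98`, so `‖F'(t)‖ = ‖v₁‖‖Φ'(tv₁)‖ < B'(t)`; hence `‖F(1)‖ ≤ B(1) ≤ 38`
(`image_norm_le_of_norm_deriv_right_lt_deriv_boundary`) and `‖Φ v₁ - w₀‖ < 98`, a contradiction.
Case B: `‖Φ 0 - w₀‖ ≥ 60` (so `v₀ ≠ 0`): the same with `F(t) = Φ((1-t)v₀) - Φ(v₀)`,
`B(t) = (38/Λ)(log(1/(1-‖v₀‖)) - log(1/(1-(1-t)‖v₀‖)))`: where `‖F‖ = B ≤ 38` the value is within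
`59` of `w₀`; so `‖Φ 0 - w₀‖ ≤ 59`, a contradiction.  Hypotheses: none. -/
def StPt : Prop := ∀ (Φ : ℂ → ℂ) (w₀ v₀ v₁ : ℂ) (ρ : ℝ), DifferentiableOn ℂ Φ (ball 0 1) → 0 < ρ →
  ρ < 1 → ‖v₀‖ ≤ ρ → ‖v₁‖ ≤ ρ → ‖Φ v₀ - w₀‖ ≤ 21 → 100 ≤ ‖Φ v₁ - w₀‖ →
  ∃ v : ℂ, ‖v‖ ≤ ρ ∧ ‖Φ v - w₀‖ ≤ 100 ∧
    38 ≤ ‖deriv Φ v‖ * (1 - ‖v‖) * Real.log (1 / (1 - ρ))

/-- SQR (about 110 lines).  `H` analytic on `𝔻` with `H² = Φ - w₀` (`exists_log_disc` for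
`(Φ-w₀)/(Φ(0)-w₀)`).  `H(z) = ± H(z')` implies `Φ z = Φ z'`, `z = z'`; `H ≠ 0`.  So `H` is injective and
`-H(z) ∉ H(𝔻)` for all `z`.  `‖H(v)‖ ≤ 10`, `‖H'(v)‖(1-‖v‖) = ‖Φ'(v)‖(1-‖v‖)/(2‖H(v)‖) ≥ κ/20`; Koebe (1/4)
on `ball v (1-‖v‖)`: `ball (H v) (κ/80) ⊆ H(𝔻)`, so `‖H(z) + H(v)‖ ≥ κ/80` for all `z ∈ 𝔻` (otherwise
`-H(z) ∈ ball (H v) (κ/80)`).  `g(z) = (κ/80)/(H(z)+H(v))` is in `BU`, `g' = -(κ/80)H'/(H+H(v))²`, and where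
`‖Φ z - w₀‖ ≤ 21`: `‖H(z)‖ ≤ 5`, `‖H(z)+H(v)‖ ≤ 15`, `‖H'(z)‖ = ‖Φ'(z)‖/(2‖H(z)‖) ≥ ‖Φ'(z)‖/10`, so
`‖g'(z)‖ ≥ κ‖Φ'(z)‖/(80·10·225) = κ‖Φ'(z)‖/180000`.  (Koebe in the form KOE does not give the covering; use
`Pool.Agent.Helper46.Rel.koebe_of bieb` for `x ↦ (H(v+(1-‖v‖)x) - H(v))/((1-‖v‖)H'(v))`.)
Hypotheses: none. -/
def StSqr : Prop := ∀ (Φ : ℂ → ℂ) (w₀ v : ℂ) (κ : ℝ), Un Φ (ball 0 1) → w₀ ∉ Φ '' ball 0 1 →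
  v ∈ ball (0 : ℂ) 1 → ‖Φ v - w₀‖ ≤ 100 → 0 < κ → κ ≤ ‖deriv Φ v‖ * (1 - ‖v‖) →
  ∃ g : ℂ → ℂ, BU g ∧
    ∀ z ∈ ball (0 : ℂ) 1, ‖Φ z - w₀‖ ≤ 21 → κ * ‖deriv Φ z‖ ≤ 200000 * ‖deriv g z‖

/-- LOC (about 180 lines).  Let `A` be the set of integration.  If `s > 1/20` use ARE (`π ≤ 20π s^{1-δ}`).  Let
`s ≤ 1/20`; on `A` we have `1-‖z‖ ≤ 4s`.  Case 1: `ball w 20 ⊆ Φ(𝔻)`.  For `z ∈ A`: `ball (Φ z) 19 ⊆ ball w 20`,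
so by INV `‖Φ'(z)‖ ≤ ‖Φ'(z)‖² (1-‖z‖)/4 ≤ s‖Φ'(z)‖²` and ARE gives the bound `πs ≤ π s^{1-δ}`.
Case 2: there is `w₀ ∉ Φ(𝔻)`, `‖w₀ - w‖ < 20`; on `A`: `‖Φ - w₀‖ ≤ 21`.  If `A = ∅` trivial; let `v₀ ∈ A` and
`ρ = 1 - s/10`.  Case 2a: `‖Φ v - w₀‖ < 100` for all `‖v‖ ≤ ρ`.  `g(v) = (Φ(ρv) - w₀)/100` is in `BU`; the
substitution `z = ρv` (`A/ρ ⊆ {1-4s ≤ ‖v‖ ≤ 1-s/10}` because `1 - s/5 ≤ (1-s/10)²`) gives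
`∫_A ‖Φ'‖ = 100ρ ∫_{A/ρ} ‖g'‖ ≤ 4000 C₀ s^{1-δ}` by ANN.  Case 2b: there is `v₁`, `‖v₁‖ ≤ ρ`,
`‖Φ v₁ - w₀‖ ≥ 100`: PT gives `v` and `κ = 38/log(10/s)`; SQR gives `g` and
`∫_A ‖Φ'‖ ≤ (200000/κ) ∫_A ‖g'‖ ≤ (200000/38) log(10/s) 40 C₀ s^{1-δ}` by ANN, `log(10/s) ≤ 3(1+log(1/s))`.
Hypotheses: hAnn hInv hAre hPt hSqr. -/
def StLoc : Prop := ∃ C₁ : ℝ, 0 < C₁ ∧ ∀ (δ C₀ s : ℝ) (Φ : ℂ → ℂ) (w : ℂ), 0 ≤ δ → δ ≤ 1 → 1 ≤ C₀ →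
  Unf δ C₀ → Un Φ (ball 0 1) → 0 < s → s ≤ 1 →
  ∫⁻ z in {z : ℂ | 1 - 4 * s ≤ ‖z‖ ∧ ‖z‖ ≤ 1 - s / 5 ∧ ‖Φ z - w‖ ≤ 1},
      ENNReal.ofReal ‖deriv Φ z‖
    ≤ ENNReal.ofReal (C₁ * C₀ * (1 + Real.log (1 / s)) * s ^ (1 - δ))

/-- CAY (about 140 lines).  `T(v) = iτ₀ - t(1-v)/(1+v)` maps `𝔻` bijectively onto `LH`, inverse
`v = (t + ξ)/(t - ξ)`, `ξ = ζ - iτ₀`.  `Φ = G ∘ T` is analytic and injective on `𝔻`.  Let `s = σ/t ≤ 1`.  For `ζ` in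
the set `R` of integration (`x = -Re ζ ∈ [σ/2, σ]`, `|Im ξ| ≤ t`): `1 - ‖v‖² = 4tx/|t-ξ|²`,
`t² ≤ |t-ξ|² = (t+x)² + (Im ξ)² ≤ 5t²`, so `4x/(5t) ≤ 1-‖v‖² ≤ 4x/t`, hence `1-‖v‖ ≥ (1-‖v‖²)/2 ≥ s/5` and
`1-‖v‖ ≤ 1-‖v‖² ≤ 4s`; `|1+v| = 2t/|t-ξ| ≥ 2/√5`, `|T'(v)| = 2t/|1+v|² ≤ 5t/2`.  Change of variables
`ζ = T(v)`: `∫_R |G'| dA = ∫_{T⁻¹R} |G'(T v)||T'(v)|² dA = ∫ |Φ'(v)||T'(v)| dA ≤ (5t/2) ∫_A |Φ'|` with the set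
`A` of LOC, and `(5t/2) C₁C₀(1+log(1/s)) s^{1-δ} = (5/2)C₁C₀(1+log(t/σ)) σ (t/σ)^δ`.
Hypotheses: hLoc. -/
def StCay : Prop := ∃ C₂ : ℝ, 0 < C₂ ∧ ∀ (δ C₀ σ t τ₀ : ℝ) (G : ℂ → ℂ) (w : ℂ), 0 ≤ δ → δ ≤ 1 →
  1 ≤ C₀ → Unf δ C₀ → Un G LH → 0 < σ → σ ≤ t →
  ∫⁻ ζ in {ζ : ℂ | -σ ≤ ζ.re ∧ ζ.re ≤ -(σ / 2) ∧ |ζ.im - τ₀| ≤ t ∧ ‖G ζ - w‖ ≤ 1},
      ENNReal.ofReal ‖deriv G ζ‖
    ≤ ENNReal.ofReal (C₂ * C₀ * (1 + Real.log (t / σ)) * σ * (t / σ) ^ δ)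

/-- LIM (about 50 lines).  `‖G'(ζ)‖ ≤ 30/(-Re ζ)` for `-1 ≤ Re ζ < 0`
(`Pool.Agent.Helper46.Rel.deriv_bound_of bieb h.Gdiff h.Ginj h.Gper`), so
`‖G(ζ) - G(-1 + i Im ζ)‖ ≤ 30 log(1/(-Re ζ))`, and `G` is bounded on the compact segment
`{-1 + iy : -7 ≤ y ≤ 14}`.  (`h.bnd.vert` in `Pool.Agent.Helper60.Rel` is the same estimate for `Re G`.)
Hypotheses: none. -/
def StLim : Prop := ∀ f G lam : ℂ → ℂ, LogData f G lam → ∃ C : ℝ, 0 ≤ C ∧ ∀ ζ : ℂ, -1 ≤ ζ.re →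
  ζ.re < 0 → -7 ≤ ζ.im → ζ.im ≤ 14 → ‖G ζ‖ ≤ C + 30 * Real.log (1 / (-ζ.re))

/-- OME (about 220 lines).  As `LogData.omega_bound` in `Pool.Agent.Helper60.Rel.Omega` (copy its proof: the set
`R = ⋃_{i ∈ A} Box n i`, `hRlev`, the covering of `R` by four rectangles
`RC (-(1/n)) (-(1/(2n))) (c m - t) (c m + t)`, `t = min 1 (8ρ)`), but bound `∫_R ‖G'‖` as follows: on `R`
`Re G ∈ [k-240, k+241]` and `‖G‖ ≤ Y := C + 30 log(2n)` (LIM; `R` lies in the strip `0 ≤ Im < 2π`), so `R` is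
covered by the sets `{‖G - (a + ib)‖ ≤ 1}`, `a ∈ k - 240 + {0,…,481}`, `b ∈ ℤ`, `|b| ≤ Y+1` (at most
`482(2Y+3)` of them).  For each of them and each of the four rectangles CAY with `σ = 1/n` gives
`≤ C₂C₀(1+log(nt)) (1/n)(nt)^δ`, `nt ≤ 8nρ`, `log(nt) ≤ log n`.  So
`∑_A om = n∫_R‖G'‖ ≤ 4·482(2Y+3) C₂C₀ (1+log n) 8 (nρ)^δ ≤ C(1+log n)²(nρ)^δ`.
Hypotheses: hCay hLim. -/
def StOme : Prop := ∀ (f G lam : ℂ → ℂ) (δ C₀ : ℝ), LogData f G lam → 0 ≤ δ → δ ≤ 1 → 1 ≤ C₀ →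
  Unf δ C₀ → ∃ C : ℝ, 0 ≤ C ∧ ∀ n : ℕ, 1 ≤ n → ∀ (A : Finset (Fin n)) (j : Fin n) (ρ k : ℝ),
    1 / (n : ℝ) ≤ ρ →
    (∀ i ∈ A, ‖exp (th n i * I) - exp (th n j * I)‖ ≤ ρ) →
    (∀ i ∈ A, (G (-((1 / (n : ℝ) : ℝ) : ℂ) + th n i * I)).re ∈ Icc k (k + 1)) →
    ∑ i ∈ A, om G n i ≤ C * (1 + Real.log n) ^ 2 * (n * ρ) ^ δ

/-- UPP (about 200 lines).  Copy `main` and `log_K1`, `log_absorb` of `Pool.Agent.Helper60.Rel.Final`: replace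
`947/1930` by `δ`, `Cω + 1` by `(C+1)(1+log n)²` (OME) and `1 + al m` by
`E₀ + ε`, `E₀ = δ + (1-δ) x`, `x = (((2-δ)/(2+δ))²)^(m-1)`; the only change in the estimate is the extra term
`2 log(1+log n)`, absorbed in the same way (`P` becomes `(m+1)+(m+1)²+3`).  `core` needs `1 ≤ m`, `δ ≤ 2/3`.
Note `-(1-δ)(1-x) = E₀ - 1`.  Hypotheses: hOme. -/
def StUpp : Prop := ∀ (δ C₀ ε : ℝ) (m : ℕ), 0 ≤ δ → δ ≤ 2 / 3 → 1 ≤ C₀ → Unf δ C₀ → 1 ≤ m → 0 < ε →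
  Admissible m (-((1 - δ) * (1 - (((2 - δ) / (2 + δ)) ^ 2) ^ (m - 1))) + ε)

end Pool.Agent.Helper51.LT
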