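import Pool.Agent.Helper51.LT.St

/-!
# Project LT (MP_d6acc2_an): the upper bound with a general number of equal weights, and the
case `α < -1` of the lower bound
-/

set_option autoImplicit false

namespace Pool.Agent.Helper51.LT

open Complex MeasureTheory Set Metric Filter Topology
open scoped Real ENNReal
open Pool.Agent.Helper60.Rel (LH tc Admissible ClassS LogData om th kap K1)

/-- the ratio `((2-δ)/(2+δ))²` -/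
noncomputable def qr (δ : ℝ) : ℝ := ((2 - δ) / (2 + δ)) ^ 2

/-- cumulative sums of the weights: `Gj r j k = k` for `k ≤ j` and `j r^(k-j)` for `k ≥ j` -/
noncomputable def Gj (r : ℝ) (j k : ℕ) : ℝ := if k ≤ j then (k : ℝ) else (j : ℝ) * r ^ (k - j)

/-- the weights -/
noncomputable def gj (r : ℝ) (j k : ℕ) : ℝ := Gj r j (k + 1) - Gj r j k

/-- WEJ (about 250 lines).  Copy `Pool.Agent.Helper60.Rel.Weights` (the case `j = 2`) with the weights `gj r j`,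
`r = (2+δ)/(2-δ) ≥ 1`.  Changes: `Gj` is nonnegative, increasing in `k` (`j ≥ 1`), `Gj 0 = 0`;
`Gj (k+1) = r Gj k` for `k ≥ j`; `w k = Gj(k+1)² - Gj(k)²`.  In the `X` term: `2 gj² - δ w = 0` for `k ≥ j`
(same computation), and for `k < j`: `gj = 1`, `w = 2k+1`, `2 - δ(2k+1) ≥ 0` by `(2j-1)δ ≤ 2`, so
the sum is `≤ Λ ∑_{k<j} (2 - δ(2k+1)) = (2j - δj²)Λ`.  Division by `Gj M² = j² r^{2(M-j)}`.
Hypotheses: none. -/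
def StWej : Prop := ∀ (M j : ℕ) (δ : ℝ), 1 ≤ j → j ≤ M → 0 ≤ δ → (2 * (j : ℝ) - 1) * δ ≤ 2 → δ < 2 →
  ∀ (U X : ℕ → ℝ) (D : ℕ → ℕ → ℝ), (∀ a b, a ≤ b → b < M → U b ≤ U a) →
  (∀ a b, D a b = D b a) → (∀ a b, -1 ≤ D a b) → ∀ Λ e C₀ : ℝ, 0 ≤ Λ →
  (∀ l < M, 0 ≤ X l ∧ X l ≤ Λ) →
  (∀ l < M, e + δ * X l + ∑ a ∈ (Finset.range M).erase l, D l a ≤ U l) →
  (∑ a ∈ Finset.range M, ∑ b ∈ Finset.range M,
      gj ((2 + δ) / (2 - δ)) j a * gj ((2 + δ) / (2 - δ)) j b * min (U a) (U b)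
    ≤ 2 * ∑ a ∈ Finset.range M, gj ((2 + δ) / (2 - δ)) j a ^ 2 * X a
      + 2 * ∑ a ∈ Finset.range M, ∑ b ∈ (Finset.range M).erase a,
        gj ((2 + δ) / (2 - δ)) j a * gj ((2 + δ) / (2 - δ)) j b * D a b
      + C₀ * (∑ a ∈ Finset.range M, gj ((2 + δ) / (2 - δ)) j a) ^ 2) →
  e ≤ (2 / j - δ) * qr δ ^ (M - j) * Λ + (M + C₀)

/-- WFJ (about 150 lines).  Copy `Pool.Agent.Helper60.Rel.Weights2` with WEJ in place of `weights_core` (weights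
`gj r j (π.symm l)`; they are nonnegative).  Hypotheses: hWej. -/
def StWfj : Prop := ∀ (M j : ℕ) (δ : ℝ), 1 ≤ j → j ≤ M → 0 ≤ δ → (2 * (j : ℝ) - 1) * δ ≤ 2 → δ < 2 →
  ∀ (U X : Fin M → ℝ) (D : Fin M → Fin M → ℝ), (∀ a b, D a b = D b a) → (∀ a b, -1 ≤ D a b) →
  ∀ Λ e C₀ : ℝ, 0 ≤ Λ → (∀ l, 0 ≤ X l ∧ X l ≤ Λ) →
  (∀ l, e + δ * X l + ∑ a ∈ Finset.univ.erase l, D l a ≤ U l) →
  (∀ γ : Fin M → ℝ, (∀ l, 0 ≤ γ l) →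
    ∑ a, ∑ b, γ a * γ b * min (U a) (U b)
      ≤ 2 * ∑ a, γ a ^ 2 * X a + 2 * ∑ a, ∑ b ∈ Finset.univ.erase a, γ a * γ b * D a b
        + C₀ * (∑ a, γ a) ^ 2) →
  e ≤ (2 / j - δ) * qr δ ^ (M - j) * Λ + (M + C₀)

/-- COJ (about 230 lines).  Copy `core` of `Pool.Agent.Helper60.Rel.Core` (import that file, reuse `bil`,
`selection`, `mass`, `K1_pos`, …): the only change is the last application, `weights_fin` is replaced by WFJ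
with `M = m+1`.  Hypotheses: hWfj. -/
def StCoj : Prop := ∀ (n m j : ℕ), 1 ≤ n → 1 ≤ m → 1 ≤ j → j ≤ m + 1 → ∀ (p : Fin n → ℂ),
  (∀ i, ‖p i‖ = 1) → ∀ (u ω : Fin n → ℝ), (∀ i, 0 ≤ ω i) → ∀ (B : ℝ) (N : ℕ), (∀ i, 0 ≤ u i + B) →
  (∀ i, u i + B ≤ N) → ∀ E : ℝ, 0 < E →
  (∀ J : Fin m → Fin n, E ≤ ∑ i, (Real.exp (u i) * ω i) * ∏ a, kap p i (J a)) →
  ∀ Cω δ C : ℝ, 0 < Cω → 0 ≤ δ → (2 * (j : ℝ) - 1) * δ ≤ 2 → δ < 2 →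
  (∀ (A : Finset (Fin n)) (i₀ : Fin n) (ρ k : ℝ), 1 / (n : ℝ) ≤ ρ →
    (∀ i ∈ A, ‖p i - p i₀‖ ≤ ρ) → (∀ i ∈ A, u i ∈ Set.Icc k (k + 1)) →
    ∑ i ∈ A, ω i ≤ Cω * (n * ρ) ^ δ) →
  (∀ γ : Fin n → ℝ, (∀ i, 0 ≤ γ i) →
    ∑ i, ∑ l, γ i * γ l * min (u i) (u l)
      ≤ 2 * ∑ i, ∑ l, γ i * γ l * (-Real.log (kap p i l)) + C * (∑ i, γ i) ^ 2) →
  Real.log E ≤ (Real.log (K1 n m N) + 1 + m * Real.log 2 + Real.log (1 + Real.log n)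
      + Real.log Cω + δ * Real.log (2 * n))
      + ((2 / j - δ) * qr δ ^ (m + 1 - j) * Real.log (2 * n) + ((m + 1) + (C + 2)))

/-- UPJ (about 200 lines).  The general form of UPP: copy `main`, `log_K1`, `log_absorb` of
`Pool.Agent.Helper60.Rel.Final` with COJ in place of `core` and `Cω = (C+1)(1+log n)²` from OME.
Hypotheses: hOme hCoj. -/
def StUpj : Prop := ∀ (δ C₀ ε : ℝ) (m j : ℕ), 0 ≤ δ → δ ≤ 1 → (2 * (j : ℝ) - 1) * δ ≤ 2 → 1 ≤ C₀ →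
  Unf δ C₀ → 1 ≤ m → 1 ≤ j → j ≤ m + 1 → 0 < ε →
  Admissible m (-1 + δ + (2 / j - δ) * qr δ ^ (m + 1 - j) + ε)

/-- ST0 (about 150 lines).  Step for `α < -1`.  Let `f` be univalent on `ball 0 R`, `R > 1`; put
`R' = min(R, 2)`, `R' = 1 + 2e₁`, `ρ' = 1 + e₁`; on `closedBall 0 ρ'` we have
`|f(w) - f(z)| ≥ κ|w - z|`, `κ > 0` (KOE with `d = e₁`, `U = ball 0 R`, and `|w-z| ≤ 4`; `|f'| ≥ c > 0`).  Let
`f₁(z) = f(z) + ε z^T/T` with `T ≡ 1 mod N` large, `ε = min(κ/4, η)/3`.  On `ball 0 (1 + 1/T)` (`1/T ≤ e₁`) the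
derivative `ε z^{T-1}` has modulus `≤ 3ε < κ`, so `f₁` is injective there (convex set).  `Sy N f₁`.
`|f₁ - f| ≤ ε ≤ η` on `𝔻`.  `tc f₁ T = tc f T + ε/T`, `|tc f T| ≤ b ρ'^{-T}` (TCF on circles of radius `< ρ'`),
so `|tc f₁ T| ≥ ε/(2T) > (j+1) T^α` for `T` large (`α < -1`), `T ≥ j`.  Robust:
`|tc F T - tc f₁ T| ≤ 2^T η'` if `‖F - f₁‖ ≤ η'` on `‖z‖ ≤ 1/2` (TCF).  Hypotheses: hKoe hTcf. -/
def StSt0 : Prop := ∀ (α : ℝ) (N : ℕ), 1 ≤ N → α < -1 → ∀ f : ℂ → ℂ, PL N f →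
  ∀ (η r : ℝ) (j : ℕ), 0 < η → r < 1 →
  ∃ f₁, PL N f₁ ∧ (∀ z : ℂ, ‖z‖ ≤ r → ‖f₁ z - f z‖ ≤ η) ∧ Rob (QL α j) f₁

/-- LF0 (about 90 lines): as LOF with ST0 in place of STL.  Hypotheses: hGH hSt0 hInj hTcd. -/
def StLf0 : Prop := ∀ (α : ℝ) (N : ℕ), 1 ≤ N → α < -1 →
  ∃ f : ℂ → ℂ, ClassS f ∧ Sy N f ∧ ∀ j : ℕ, QL α j f

/-- LA0 (about 100 lines): as LOA with LF0 in place of LOF.  Hypotheses: hLf0 hTcf hTcd. -/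
def StLa0 : Prop := ∀ (m : ℕ) (α : ℝ), 1 ≤ m → α < -1 → ¬ Admissible m α

end Pool.Agent.Helper51.LT
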