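import Pool.Agent.Helper51.LT.St2

/-!
# LT, module LA0 (adapted from the module LOA of helper96)

Exponents below `-1` are not admissible.
-/

set_option autoImplicit false

namespace Pool.Agent.Helper51.LT

open Complex MeasureTheory Set Metric Filter Topology
open scoped Real ENNReal
open Pool.Agent.Helper60.Rel (LH tc Admissible ClassS LogData om th)

/-- derivatives of a symmetric function -/
private theorem iter_sym {f : ℂ → ℂ} {ω : ℂ} (hω : ‖ω‖ = 1)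
    (h : ∀ z ∈ ball (0 : ℂ) 1, f (ω * z) = ω * f z) (n : ℕ) :
    ∀ z ∈ ball (0 : ℂ) 1, iteratedDeriv n f (ω * z) * ω ^ n = ω * iteratedDeriv n f z := by
  induction n with
  | zero =>
    intro z hz
    simpa using h z hz
  | succ n ih =>
    intro z hz
    have he : (fun z => iteratedDeriv n f (ω * z) * ω ^ n) =ᶠ[𝓝 z]
        (fun z => ω * iteratedDeriv n f z) := by
      filter_upwards [isOpen_ball.mem_nhds hz] with w hw
      exact ih w hw
    have h1 := he.deriv_eq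
    rw [deriv_mul_const_field, deriv_const_mul_field, deriv_comp_mul_left ω (iteratedDeriv n f) z] at h1
    rw [iteratedDeriv_succ, pow_succ, ← h1, smul_eq_mul]
    ring

private theorem root_of_tc {f : ℂ → ℂ} {N : ℕ} (hN : 1 ≤ N) (hs : Sy N f) {ω : ℂ}
    (hω : ω ^ N = 1) {n : ℕ} (hn : tc f n ≠ 0) : ω ^ n = ω := by
  have hω1 : ‖ω‖ = 1 := by
    have h1 : ‖ω‖ ^ N = 1 := by rw [← norm_pow, hω, norm_one]
    exact (pow_eq_one_iff_of_nonneg (norm_nonneg _) (by omega)).1 h1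
  have h0 := iter_sym hω1 (fun z hz => hs ω z hω hz) n 0 (by simp)
  rw [mul_zero] at h0
  have hne : iteratedDeriv n f 0 ≠ 0 := by
    intro h
    apply hn
    simp [tc, h]
  have h1 : iteratedDeriv n f 0 * ω ^ n = iteratedDeriv n f 0 * ω := by
    rw [h0]; ring
  exact mul_left_cancel₀ hne h1

private theorem pow_cmp {n T : ℕ} (α : ℝ) (hn : 1 ≤ n) (h1 : n ≤ T) (h2 : T ≤ 2 * n) :
    (n : ℝ) ^ α ≤ 2 ^ |α| * (T : ℝ) ^ α := by
  have hn0 : (0 : ℝ) < n := by exact_mod_cast hn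
  have hT0 : (0 : ℝ) < T := by
    have : (1 : ℝ) ≤ T := by exact_mod_cast hn.trans h1
    linarith
  have h1' : (n : ℝ) ≤ T := by exact_mod_cast h1
  have h2' : (T : ℝ) ≤ 2 * n := by exact_mod_cast h2
  rcases le_or_gt 0 α with ha | ha
  · have e1 : (n : ℝ) ^ α ≤ (T : ℝ) ^ α := Real.rpow_le_rpow hn0.le h1' ha
    have e2 : (1 : ℝ) ≤ 2 ^ |α| := Real.one_le_rpow (by norm_num) (abs_nonneg _)
    have e3 : 0 ≤ (T : ℝ) ^ α := Real.rpow_nonneg hT0.le _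
    nlinarith
  · rw [abs_of_neg ha]
    have e1 : ((2 : ℝ) * n) ^ α ≤ (T : ℝ) ^ α :=
      Real.rpow_le_rpow_of_nonpos hT0 h2' ha.le
    rw [Real.mul_rpow (by norm_num) hn0.le] at e1
    have e2 : (0 : ℝ) < 2 ^ (-α) := Real.rpow_pos_of_pos (by norm_num) _
    have e3 : (2 : ℝ) ^ (-α) * 2 ^ α = 1 := by
      rw [← Real.rpow_add (by norm_num)]
      simp
    calc (n : ℝ) ^ α = (2 : ℝ) ^ (-α) * (2 ^ α * (n : ℝ) ^ α) := by
          rw [← mul_assoc, e3, one_mul]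
      _ ≤ (2 : ℝ) ^ (-α) * (T : ℝ) ^ α := mul_le_mul_of_nonneg_left e1 e2.le

theorem hLa0 (hLf0 : StLf0) : StLa0 := by
  intro m α hm hα hadm
  obtain ⟨f, hf, hsy, hq⟩ := hLf0 α (m + 1) (by omega) hα
  obtain ⟨K, hK⟩ := hadm f hf 1 le_rfl
  obtain ⟨J, hJ⟩ := exists_nat_ge ((4 : ℝ) ^ m * (|K| * 2 ^ |α|))
  -- the event
  obtain ⟨T, hT, hbig⟩ := hq (max J (2 * m + 2))
  have hT1 : J ≤ T := le_trans (le_max_left _ _) hT
  have hT2 : 2 * m + 2 ≤ T := le_trans (le_max_right _ _) hT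
  obtain ⟨c, hc0, hcm, hrel⟩ := hK (T - m) (by omega)
  have hrel0 := hrel 0 (by omega)
  have hT0 : (0 : ℝ) < T := by
    have : (0 : ℕ) < T := by omega
    exact_mod_cast this
  have hTα : 0 < (T : ℝ) ^ α := Real.rpow_pos_of_pos hT0 _
  have htc : tc f T ≠ 0 := by
    intro h
    rw [h, norm_zero] at hbig
    have : 0 ≤ ((max J (2 * m + 2) : ℕ) : ℝ) * (T : ℝ) ^ α := by positivity
    linarith
  have hprim := Complex.isPrimitiveRoot_exp (m + 1) (by omega)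
  set ω : ℂ := Complex.exp (2 * π * I / ((m + 1 : ℕ) : ℂ)) with hωdef
  have hωN : ω ^ (m + 1) = 1 := hprim.pow_eq_one
  have hω0 : ω ≠ 0 := Complex.exp_ne_zero _
  have hωT : ω ^ T = ω := root_of_tc (by omega) hsy hωN htc
  have hzero : ∀ i ∈ Finset.range m, c i * tc f (T - m + 0 + i) = 0 := by
    intro i hi
    rw [Finset.mem_range] at hi
    by_contra hne
    have h1 : tc f (T - m + 0 + i) ≠ 0 := right_ne_zero_of_mul hne
    have h2 : ω ^ (T - m + 0 + i) = ω := root_of_tc (by omega) hsy hωN h1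
    have h3 : ω ^ (m - i) = 1 := by
      have h4 : ω ^ (T - m + 0 + i) * ω ^ (m - i) = ω ^ T := by
        rw [← pow_add]
        congr 1
        omega
      rw [h2, hωT] at h4
      exact mul_left_cancel₀ hω0 (by rw [h4, mul_one])
    have h5 := (hprim.pow_eq_one_iff_dvd (m - i)).1 h3
    have h6 := Nat.le_of_dvd (by omega) h5
    omega
  rw [Finset.sum_range_succ, Finset.sum_eq_zero hzero, zero_add] at hrel0
  have hidx : T - m + 0 + m = T := by omega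
  rw [hidx, norm_mul] at hrel0
  -- comparison
  have e1 : (1 / 4 : ℝ) ^ m * ‖tc f T‖ ≤ ‖c m‖ * ‖tc f T‖ :=
    mul_le_mul_of_nonneg_right hcm (norm_nonneg _)
  have e2 : K * ((T - m : ℕ) : ℝ) ^ α ≤ |K| * (2 ^ |α| * (T : ℝ) ^ α) := by
    have h1 : ((T - m : ℕ) : ℝ) ^ α ≤ 2 ^ |α| * (T : ℝ) ^ α :=
      pow_cmp α (by omega) (by omega) (by omega)
    have h2 : (0 : ℝ) ≤ ((T - m : ℕ) : ℝ) ^ α := by positivity
    calc K * ((T - m : ℕ) : ℝ) ^ α ≤ |K| * ((T - m : ℕ) : ℝ) ^ α :=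
          mul_le_mul_of_nonneg_right (le_abs_self K) h2
      _ ≤ _ := mul_le_mul_of_nonneg_left h1 (abs_nonneg _)
  have e3 : (1 / 4 : ℝ) ^ m * ‖tc f T‖ ≤ |K| * (2 ^ |α| * (T : ℝ) ^ α) :=
    e1.trans (hrel0.trans e2)
  have e4 : ‖tc f T‖ ≤ (4 : ℝ) ^ m * (|K| * 2 ^ |α|) * (T : ℝ) ^ α := by
    have h1 : (4 : ℝ) ^ m * (1 / 4 : ℝ) ^ m = 1 := by
      rw [← mul_pow]; norm_num
    calc ‖tc f T‖ = (4 : ℝ) ^ m * ((1 / 4 : ℝ) ^ m * ‖tc f T‖) := by
          rw [← mul_assoc, h1, one_mul]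
      _ ≤ (4 : ℝ) ^ m * (|K| * (2 ^ |α| * (T : ℝ) ^ α)) :=
          mul_le_mul_of_nonneg_left e3 (by positivity)
      _ = _ := by ring
  have e5 : ((max J (2 * m + 2) : ℕ) : ℝ) * (T : ℝ) ^ α <
      (4 : ℝ) ^ m * (|K| * 2 ^ |α|) * (T : ℝ) ^ α := lt_of_lt_of_le hbig e4
  have e6 : ((max J (2 * m + 2) : ℕ) : ℝ) < (4 : ℝ) ^ m * (|K| * 2 ^ |α|) :=
    lt_of_mul_lt_mul_right e5 hTα.le
  have e7 : (J : ℝ) ≤ ((max J (2 * m + 2) : ℕ) : ℝ) := by exact_mod_cast le_max_left _ _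
  linarith

end Pool.Agent.Helper51.LT
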