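import Pool.Agent.Helper51.LT.St

/-!
# Project LT, module TCD
-/

set_option autoImplicit false

namespace Pool.Agent.Helper51.LT

open Complex MeasureTheory Set Metric Filter Topology
open scoped Real ENNReal
open Pool.Agent.Helper60.Rel (LH tc Admissible ClassS LogData om th)

theorem hTcd : StTcd := by
  refine ⟨?_, ?_, ?_⟩
  · intro F n
    unfold tc
    rw [iteratedDeriv_succ', Nat.factorial_succ]
    have h1 : ((n.factorial : ℕ) : ℂ) ≠ 0 := by exact_mod_cast n.factorial_ne_zero
    have h2 : ((n : ℂ) + 1) ≠ 0 := by exact_mod_cast n.succ_ne_zero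
    push_cast
    field_simp
  · intro F ρ n h0 h1 hF
    unfold tc
    have hs : ∀ n : ℕ, ∀ z ∈ ball (0 : ℂ) 1,
        iteratedDeriv n (fun z => F (ρ * z)) z = (ρ : ℂ) ^ n * iteratedDeriv n F (ρ * z) := by
      intro n
      induction n with
      | zero => intro z _; simp
      | succ n ih =>
        intro z hz
        rw [iteratedDeriv_succ, iteratedDeriv_succ]
        have he : iteratedDeriv n (fun z => F (ρ * z)) =ᶠ[𝓝 z]
            fun z => (ρ : ℂ) ^ n * iteratedDeriv n F (ρ * z) := by
          filter_upwards [isOpen_ball.mem_nhds hz] with w hw using ih w hw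
        rw [he.deriv_eq]
        have hρz : (ρ : ℂ) * z ∈ ball (0 : ℂ) 1 := by
          rw [mem_ball_zero_iff] at hz ⊢
          rw [norm_mul, Complex.norm_real, Real.norm_of_nonneg h0.le]
          nlinarith [norm_nonneg z]
        have hd : DifferentiableAt ℂ (iteratedDeriv n F) (ρ * z) := by
          have hA : AnalyticOnNhd ℂ F (ball 0 1) := hF.analyticOnNhd isOpen_ball
          rw [iteratedDeriv_eq_iterate]
          exact ((hA.iterated_deriv n) _ hρz).differentiableAt
        have h3 : HasDerivAt (fun z : ℂ => (ρ : ℂ) * z) (ρ : ℂ) z := by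
          simpa using (hasDerivAt_id z).const_mul (ρ : ℂ)
        have h4 := (hd.hasDerivAt.comp z h3).const_mul ((ρ : ℂ) ^ n)
        have h5 : deriv (fun z => (ρ : ℂ) ^ n * iteratedDeriv n F (ρ * z)) z
            = (ρ : ℂ) ^ n * (deriv (iteratedDeriv n F) (ρ * z) * ρ) := h4.deriv
        rw [h5]
        ring
    have := hs n 0 (mem_ball_self one_pos)
    rw [this, mul_zero]
    ring
  · intro F c n hF
    unfold tc
    have hA : ContDiffAt ℂ n F 0 :=
      ((hF.analyticOnNhd isOpen_ball) 0 (mem_ball_self one_pos)).contDiffAt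
    rw [iteratedDeriv_const_mul_field]
    ring

end Pool.Agent.Helper51.LT
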