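import Pool.Agent.Helper51.LT.Ex
import Pool.Agent.Helper51.LT.M_LA0
import Pool.Agent.Helper51.LT.M_TCD
import Pool.Agent.Helper51.BB.Half
import Pool.Agent.Helper28.LT.M_KOE
import Pool.Agent.Helper68.LT.M_D1
import Pool.Agent.Helper95.LT.M_D2
import Pool.Agent.Helper92.LT.M_D3
import Pool.Agent.Helper80.LT.M_SYM
import Pool.Agent.Helper7.LT.M_IMS
import Pool.Agent.Helper98.LT.M_HAR
import Pool.Agent.Helper78.LT.M_IMB
import Pool.Agent.Helper84.LT.M_HUMP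
import Pool.Agent.Helper72.LT.M_GH
import Pool.Agent.Helper2.LT.M_STP
import Pool.Agent.Helper2.LT.M_NN
import Pool.Agent.Helper67.LT.M_UNF
import Pool.Agent.Helper62.LT.M_POL
import Pool.Agent.Helper4.LT.M_CJU
import Pool.Agent.Helper41.LT.M_TCF
import Pool.Agent.Helper79.LT.M_CJC
import Pool.Agent.Helper96.LT.M_LOA
import Pool.Agent.Helper9.LT.M_INV
import Pool.Agent.Helper94.LT.M_ARE
import Pool.Agent.Helper86.LT.M_PT
import Pool.Agent.Helper43.LT.M_SQR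
import Pool.Agent.Helper39.LT.M_LOC
import Pool.Agent.Helper61.LT.M_OME
import Pool.Agent.Helper75.LT.M_UPP
import Pool.Agent.Helper29.LT.M_WEJ
import Pool.Agent.Helper93.LT.M_WFJ
import Pool.Agent.Helper15.LT.M_COJ
import Pool.Agent.Helper61.LT.M_ST0
import Pool.Agent.Helper99.LT.M_ANN
import Pool.Agent.Helper38.LT.M_INJ
import Pool.Agent.Helper76.LT.M_STL
import Pool.Agent.Helper23.LT.M_LOF
import Pool.Agent.Helper26.LT.M_CAY
import Pool.Agent.Helper80.LT.M_LIM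

/-!
# Project LT: assembly of all modules
-/

set_option autoImplicit false

namespace Pool.Agent.Helper51.LT

open Complex MeasureTheory Set Metric Filter Topology
open scoped Real ENNReal
open Pool.Agent.Helper60.Rel (LH tc Admissible ClassS LogData om th)

theorem zKoe : StKoe := Pool.Agent.Helper28.LT.hKoe
theorem zD2 : StD2 := Pool.Agent.Helper95.LT.hD2 Pool.Agent.Helper68.LT.hD1
theorem zD3 : StD3 := Pool.Agent.Helper92.LT.hD3 zD2
theorem zHump : StHump := Pool.Agent.Helper84.LT.hHump zD2 Pool.Agent.Helper80.LT.hSym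
  Pool.Agent.Helper7.LT.hIms Pool.Agent.Helper78.LT.hImb
theorem zGH : StGH := Pool.Agent.Helper72.LT.hGH
theorem zInj : StInj := Pool.Agent.Helper38.LT.hInj zKoe
theorem zHar : StHar := Pool.Agent.Helper98.LT.hHar
theorem zStp : StStp := Pool.Agent.Helper2.LT.hStp zHump zHar
theorem zNn : StNn := Pool.Agent.Helper2.LT.hNn
theorem zUnf : StUnf := Pool.Agent.Helper67.LT.hUnf zNn zGH zStp zInj
theorem zHalf : StHalf := Pool.Agent.Helper51.BB.hHalf
theorem zTcf : StTcf := Pool.Agent.Helper41.LT.hTcf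
theorem zCJU : StCJU := Pool.Agent.Helper4.LT.hCJU zKoe zD2 zD3
theorem zCJC : StCJC := Pool.Agent.Helper79.LT.hCJC zTcf hTcd
theorem zStl : StStl := Pool.Agent.Helper76.LT.hStl zHump zHar (Pool.Agent.Helper62.LT.hPol zD2)
  zCJU zTcf hTcd zCJC
theorem zLof : StLof := Pool.Agent.Helper23.LT.hLof zGH zStl zInj hTcd
theorem zLoa : StLoa := Pool.Agent.Helper96.LT.hLoa zLof zTcf hTcd
theorem zSt0 : StSt0 := Pool.Agent.Helper61.LT.hSt0 zKoe zTcf
theorem zLf0 : StLf0 := Pool.Agent.Helper23.LT.hLf0 zGH zSt0 zInj hTcd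
theorem zLa0 : StLa0 := hLa0 zLf0
theorem zLoc : StLoc := Pool.Agent.Helper39.LT.hLoc Pool.Agent.Helper99.LT.hAnn
  Pool.Agent.Helper9.LT.hInv Pool.Agent.Helper94.LT.hAre Pool.Agent.Helper86.LT.hPt
  Pool.Agent.Helper43.LT.hSqr
theorem zCay : StCay := Pool.Agent.Helper26.LT.hCay zLoc
theorem zOme : StOme := Pool.Agent.Helper61.LT.hOme zCay Pool.Agent.Helper80.LT.hLim
theorem zWej : StWej := Pool.Agent.Helper29.LT.hWej
theorem zWfj : StWfj := Pool.Agent.Helper93.LT.hWfj zWej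
theorem zCoj : StCoj := Pool.Agent.Helper15.LT.hCoj zWfj
theorem zUpj : StUpj := Pool.Agent.Helper75.LT.hUpj zOme zCoj

theorem zBb_nonneg : 0 ≤ Bb := Bb_nonneg zNn zHalf

theorem zBb_le_half : Bb ≤ 1 / 2 := Bb_le_half zNn zHalf

theorem z_spec {m : ℕ} (hm : 1 ≤ m) :
    (∀ α, aS m < α → Admissible m α) ∧ (∀ α, α < aS m → ¬ Admissible m α) :=
  aS_spec zUnf zNn zHalf zUpj zLoa zLa0 hm

theorem z_bounds {m : ℕ} (hm : 1 ≤ m) :
    -(1 - Bb) ≤ aS m ∧ ∀ j : ℕ, 1 ≤ j → j ≤ m + 1 → (2 * (j : ℝ) - 1) * Bb < 2 →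
      aS m ≤ vb m j Bb :=
  aS_bounds zUnf zNn zHalf zUpj zLoa zLa0 hm

theorem z_tendsto : Tendsto aS atTop (𝓝 (-(1 - Bb))) :=
  aS_tendsto zUnf zNn zHalf zUpj zLoa zLa0

end Pool.Agent.Helper51.LT
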