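import Pool.Agent.Helper51.LT.St2

/-!
# Project LT: final assembly
-/

set_option autoImplicit false

namespace Pool.Agent.Helper51.LT

open Complex MeasureTheory Set Metric Filter Topology
open scoped Real ENNReal
open Pool.Agent.Helper60.Rel (LH tc Admissible ClassS LogData om th)

/-- the optimal exponent -/
noncomputable def aS (m : ℕ) : ℝ := sInf {α : ℝ | Admissible m α}

/-- the upper bound with `j` equal weights -/
noncomputable def vb (m j : ℕ) (δ : ℝ) : ℝ := -1 + δ + (2 / j - δ) * qr δ ^ (m + 1 - j)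

theorem Bd.mono {β γ : ℝ} (h : Bd β) (hβγ : β ≤ γ) : Bd γ := by
  intro g hg
  obtain ⟨C, hC⟩ := h g hg
  refine ⟨|C|, fun r h0 h1 => (hC r h0 h1).trans ?_⟩
  have h2 : 0 < 1 - r := by linarith
  have h3 : (1 - r) ^ (-β) ≤ (1 - r) ^ (-γ) :=
    Real.rpow_le_rpow_of_exponent_ge h2 (by linarith) (by linarith)
  have h4 : 0 ≤ (1 - r) ^ (-β) := Real.rpow_nonneg h2.le _
  calc C * (1 - r) ^ (-β) ≤ |C| * (1 - r) ^ (-β) :=
        mul_le_mul_of_nonneg_right (le_abs_self C) h4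
    _ ≤ |C| * (1 - r) ^ (-γ) := mul_le_mul_of_nonneg_left h3 (abs_nonneg C)

theorem Bd_half (hHalf : StHalf) : Bd (1 / 2) := by
  obtain ⟨C, hC⟩ := hHalf
  exact fun g hg => ⟨C, hC g hg⟩

theorem Bb_nonneg (hNn : StNn) (hHalf : StHalf) : 0 ≤ Bb :=
  le_csInf ⟨1 / 2, Bd_half hHalf⟩ (fun β hβ => hNn β hβ)

theorem Bb_le_half (hNn : StNn) (hHalf : StHalf) : Bb ≤ 1 / 2 :=
  csInf_le ⟨0, fun β hβ => hNn β hβ⟩ (Bd_half hHalf)

theorem Unf_of_lt (hUnf : StUnf) (hHalf : StHalf) {δ : ℝ} (h : Bb < δ) :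
    ∃ C₀ : ℝ, 1 ≤ C₀ ∧ Unf δ C₀ := by
  obtain ⟨β, hβ, hβδ⟩ := exists_lt_of_csInf_lt ⟨1 / 2, Bd_half hHalf⟩ h
  exact hUnf β δ hβ hβδ

theorem HU_of_lt (hNn : StNn) {γ : ℝ} (h : γ < Bb) : HU γ := by
  have h1 : ¬ Bd γ := fun hb => by
    have : Bb ≤ γ := csInf_le ⟨0, fun β hβ => hNn β hβ⟩ hb
    linarith
  unfold Bd at h1
  push Not at h1
  obtain ⟨g, hg, hgC⟩ := h1
  intro C
  obtain ⟨r, h0, h1, h2⟩ := hgC C
  exact ⟨g, r, hg, h0, h1, h2⟩

/-- lower half -/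
theorem not_adm (hNn : StNn) (hLoa : StLoa) (hLa0 : StLa0) {m : ℕ} (hm : 1 ≤ m) {α : ℝ}
    (h : α < -(1 - Bb)) : ¬ Admissible m α := by
  rcases lt_or_ge α (-1) with hα | hα
  · exact hLa0 m α hm hα
  · have hγ : (1 + α + Bb) / 2 < Bb := by linarith
    exact hLoa m α ((1 + α + Bb) / 2) hm (by linarith) (by linarith) (HU_of_lt hNn hγ)

theorem qr_cont {δ : ℝ} (h : 0 ≤ δ) : ContinuousAt qr δ := by
  unfold qr
  have : (2 : ℝ) + δ ≠ 0 := by linarith
  fun_prop (disch := assumption)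

theorem vb_cont (m j : ℕ) {δ : ℝ} (h : 0 ≤ δ) : ContinuousAt (vb m j) δ := by
  unfold vb
  have h1 := qr_cont h
  fun_prop

/-- upper half -/
theorem adm (hUnf : StUnf) (hNn : StNn) (hHalf : StHalf) (hUpj : StUpj) {m j : ℕ} (hm : 1 ≤ m)
    (hj : 1 ≤ j) (hjm : j ≤ m + 1) (hB : (2 * (j : ℝ) - 1) * Bb < 2) {ε : ℝ} (hε : 0 < ε) :
    Admissible m (vb m j Bb + ε) := by
  have hB0 := Bb_nonneg hNn hHalf
  have hB1 := Bb_le_half hNn hHalf
  have hc := vb_cont m j hB0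
  have e1 : ∀ᶠ δ in 𝓝 Bb, vb m j δ < vb m j Bb + ε / 2 :=
    hc.eventually (gt_mem_nhds (by linarith))
  have e2 : ∀ᶠ δ in 𝓝 Bb, (2 * (j : ℝ) - 1) * δ < 2 := by
    have : ContinuousAt (fun δ : ℝ => (2 * (j : ℝ) - 1) * δ) Bb := by fun_prop
    exact this.eventually (gt_mem_nhds hB)
  have e3 : ∀ᶠ δ in 𝓝 Bb, δ < 1 := gt_mem_nhds (by linarith)
  obtain ⟨l, u, hlu, hIoo⟩ := mem_nhds_iff_exists_Ioo_subset.1 (e1.and (e2.and e3))
  set δ := (Bb + u) / 2 with hδ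
  have h1 : Bb < δ := by rw [hδ]; linarith [hlu.2]
  have h2 : δ ∈ Ioo l u := ⟨by linarith [hlu.1], by rw [hδ]; linarith [hlu.2]⟩
  obtain ⟨a1, a2, a3⟩ := hIoo h2
  obtain ⟨C₀, hC1, hC⟩ := Unf_of_lt hUnf hHalf h1
  have h3 := hUpj δ C₀ (vb m j Bb + ε - vb m j δ) m j (by linarith) a3.le a2.le hC1 hC hm hj hjm
    (by linarith)
  have h4 : -1 + δ + (2 / (j : ℝ) - δ) * qr δ ^ (m + 1 - j) + (vb m j Bb + ε - vb m j δ)
      = vb m j Bb + ε := by unfold vb; ring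
  rwa [h4] at h3

theorem aS_bounds (hUnf : StUnf) (hNn : StNn) (hHalf : StHalf) (hUpj : StUpj) (hLoa : StLoa)
    (hLa0 : StLa0) {m : ℕ} (hm : 1 ≤ m) :
    -(1 - Bb) ≤ aS m ∧ ∀ j : ℕ, 1 ≤ j → j ≤ m + 1 → (2 * (j : ℝ) - 1) * Bb < 2 →
      aS m ≤ vb m j Bb := by
  have hB0 := Bb_nonneg hNn hHalf
  have hlow : ∀ α ∈ {α : ℝ | Admissible m α}, -(1 - Bb) ≤ α := by
    intro α hα
    by_contra hc
    exact not_adm hNn hLoa hLa0 hm (not_le.1 hc) hα
  have hne : {α : ℝ | Admissible m α}.Nonempty :=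
    ⟨_, adm hUnf hNn hHalf hUpj hm le_rfl (by omega)
      (by have := Bb_le_half hNn hHalf; push_cast; linarith) one_pos⟩
  refine ⟨le_csInf hne hlow, ?_⟩
  intro j hj hjm hB
  apply le_of_forall_pos_le_add
  intro ε hε
  exact csInf_le ⟨_, hlow⟩ (adm hUnf hNn hHalf hUpj hm hj hjm hB hε)

theorem aS_tendsto (hUnf : StUnf) (hNn : StNn) (hHalf : StHalf) (hUpj : StUpj) (hLoa : StLoa)
    (hLa0 : StLa0) : Tendsto aS atTop (𝓝 (-(1 - Bb))) := by
  have hB0 := Bb_nonneg hNn hHalf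
  have hB1 := Bb_le_half hNn hHalf
  rcases hB0.eq_or_lt with h0 | h0
  · -- the case `Bb = 0`
    have hup : Tendsto (fun m : ℕ => -1 + 2 / ((m : ℝ) + 1)) atTop (𝓝 (-(1 - Bb))) := by
      have h1 : Tendsto (fun m : ℕ => -1 + 2 * (1 / ((m : ℝ) + 1))) atTop (𝓝 (-1 + 2 * 0)) :=
        (tendsto_one_div_add_atTop_nhds_zero_nat.const_mul 2).const_add (-1)
      rw [← h0]
      convert h1 using 2
      · ring
      · norm_num
    refine tendsto_of_tendsto_of_tendsto_of_le_of_le' tendsto_const_nhds hup ?_ ?_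
    · filter_upwards [eventually_ge_atTop 1] with m hm
      exact (aS_bounds hUnf hNn hHalf hUpj hLoa hLa0 hm).1
    · filter_upwards [eventually_ge_atTop 1] with m hm
      have h2 := (aS_bounds hUnf hNn hHalf hUpj hLoa hLa0 hm).2 (m + 1) (by omega) le_rfl
        (by rw [← h0]; norm_num)
      refine h2.trans (le_of_eq ?_)
      unfold vb
      rw [← h0, Nat.sub_self, pow_zero]
      push_cast
      ring
  · have hq0 : 0 ≤ qr Bb := by unfold qr; positivity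
    have hq1 : qr Bb < 1 := by
      unfold qr
      have h2 : (2 - Bb) / (2 + Bb) < 1 := by
        rw [div_lt_one (by linarith)]; linarith
      have h3 : 0 ≤ (2 - Bb) / (2 + Bb) := by
        apply div_nonneg <;> linarith
      nlinarith
    have hup : Tendsto (fun m : ℕ => -1 + Bb + (2 / (2 : ℕ) - Bb) * qr Bb ^ (m + 1 - 2)) atTop
        (𝓝 (-(1 - Bb))) := by
      have h1 : Tendsto (fun m : ℕ => qr Bb ^ (m + 1 - 2)) atTop (𝓝 0) :=
        (tendsto_pow_atTop_nhds_zero_of_lt_one hq0 hq1).comp (by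
          have : (fun m : ℕ => m + 1 - 2) = fun m => m - 1 := by
            funext m; omega
          rw [this]
          exact tendsto_sub_atTop_nat 1)
      have h2 := (h1.const_mul (2 / ((2 : ℕ) : ℝ) - Bb)).const_add (-1 + Bb)
      convert h2 using 2
      ring
    refine tendsto_of_tendsto_of_tendsto_of_le_of_le' tendsto_const_nhds hup ?_ ?_
    · filter_upwards [eventually_ge_atTop 1] with m hm
      exact (aS_bounds hUnf hNn hHalf hUpj hLoa hLa0 hm).1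
    · filter_upwards [eventually_ge_atTop 1] with m hm
      exact (aS_bounds hUnf hNn hHalf hUpj hLoa hLa0 hm).2 2 (by norm_num) (by omega)
        (by push_cast; linarith)

end Pool.Agent.Helper51.LT
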