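import Pool.Agent.Helper51.LT.Fin2

/-!
# Project LT, stage 2: the exact value of the optimal exponent
-/

set_option autoImplicit false

namespace Pool.Agent.Helper51.LT

open Complex MeasureTheory Set Metric Filter Topology
open scoped Real ENNReal
open Pool.Agent.Helper60.Rel (LH tc Admissible ClassS LogData om th)

/-- The lower half of stage 2 (project SR, helper5). -/
def StLowX : Prop := ∀ m j : ℕ, 1 ≤ m → 1 ≤ j → j ≤ m + 1 → (2 * (j : ℝ) - 1) * Bb ≤ 2 →
  (j = m + 1 ∨ 2 ≤ (2 * (j : ℝ) + 1) * Bb) → ∀ α : ℝ, α < vb m j Bb → ¬ Admissible m α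

/-- the values for `j - 1` and `j` agree at the boundary of the ranges -/
theorem vb_boundary {m j : ℕ} {B : ℝ} (hj : 2 ≤ j) (hjm : j ≤ m + 1)
    (hB : (2 * (j : ℝ) - 1) * B = 2) : vb m (j - 1) B = vb m j B := by
  obtain ⟨i, rfl⟩ : ∃ i, j = i + 2 := ⟨j - 2, by omega⟩
  have e1 : i + 2 - 1 = i + 1 := by omega
  have e2 : m + 1 - (i + 1) = (m + 1 - (i + 2)) + 1 := by omega
  unfold vb
  rw [e1, e2, pow_succ]
  have h0 : (0 : ℝ) ≤ (i : ℝ) := Nat.cast_nonneg i
  push_cast at hB ⊢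
  have h1 : (2 * ((i : ℝ) + 2) - 1) = 2 * i + 3 := by ring
  rw [h1] at hB
  have h2 : (0 : ℝ) < 2 * (i : ℝ) + 3 := by linarith
  have hBe : B = 2 / (2 * (i : ℝ) + 3) := by
    rw [eq_div_iff h2.ne']; linarith
  have hq : qr B = (((i : ℝ) + 1) / (i + 2)) ^ 2 := by
    unfold qr
    congr 1
    rw [hBe]
    field_simp
    ring
  have h3 : (2 / ((i : ℝ) + 1) - B) * qr B = 2 / ((i : ℝ) + 2) - B := by
    rw [hq, hBe]
    field_simp
    ring
  have h4 : ∀ x : ℝ, (2 / ((i : ℝ) + 1) - B) * (x * qr B) = (2 / ((i : ℝ) + 2) - B) * x := by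
    intro x
    rw [← h3]; ring
  rw [h4]

/-- The exact value. -/
theorem aS_eq (hUnf : StUnf) (hNn : StNn) (hHalf : StHalf) (hUpj : StUpj) (hLoa : StLoa)
    (hLa0 : StLa0) (hLow : StLowX) {m j : ℕ} (hm : 1 ≤ m) (hj : 1 ≤ j) (hjm : j ≤ m + 1)
    (h1 : (2 * (j : ℝ) - 1) * Bb ≤ 2) (h2 : j = m + 1 ∨ 2 ≤ (2 * (j : ℝ) + 1) * Bb) :
    aS m = vb m j Bb := by
  have hB1 := Bb_le_half hNn hHalf
  have hB0 := Bb_nonneg hNn hHalf
  have hb := aS_bounds hUnf hNn hHalf hUpj hLoa hLa0 hm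
  have hs := aS_spec hUnf hNn hHalf hUpj hLoa hLa0 hm
  apply le_antisymm
  · rcases h1.lt_or_eq with h | h
    · exact hb.2 j hj hjm h
    · rcases Nat.lt_or_ge j 2 with hj2 | hj2
      · have : j = 1 := by omega
        rw [this] at h
        push_cast at h
        linarith
      · rw [← vb_boundary hj2 hjm h]
        apply hb.2 (j - 1) (by omega) (by omega)
        rw [Nat.cast_sub hj, Nat.cast_one]
        rcases hB0.eq_or_lt with h0 | h0
        · rw [← h0]; norm_num
        · nlinarith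
  · by_contra hc
    rw [not_le] at hc
    obtain ⟨α, hα1, hα2⟩ := exists_between hc
    exact hLow m j hm hj hjm h1 h2 α hα2 (hs.1 α hα1)

/-- The index of the exact value exists. -/
theorem exists_idx (hNn : StNn) (hHalf : StHalf) (m : ℕ) :
    ∃ j : ℕ, 1 ≤ j ∧ j ≤ m + 1 ∧ (2 * (j : ℝ) - 1) * Bb ≤ 2 ∧
      (j = m + 1 ∨ 2 ≤ (2 * (j : ℝ) + 1) * Bb) := by
  classical
  have hB1 := Bb_le_half hNn hHalf
  set P : ℕ → Prop := fun j => 1 ≤ j ∧ (2 * (j : ℝ) - 1) * Bb ≤ 2 with hP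
  have hP1 : P 1 := ⟨le_rfl, by push_cast; linarith⟩
  refine ⟨Nat.findGreatest P (m + 1), ?_, Nat.findGreatest_le _, ?_, ?_⟩
  · exact (Nat.findGreatest_spec (P := P) (by omega : 1 ≤ m + 1) hP1).1
  · exact (Nat.findGreatest_spec (P := P) (by omega : 1 ≤ m + 1) hP1).2
  · rcases (Nat.findGreatest_le (P := P) (m + 1)).eq_or_lt with h | h
    · exact Or.inl h
    · right
      have h3 := Nat.findGreatest_is_greatest (P := P) (Nat.lt_succ_self _) h
      by_contra hc
      apply h3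
      rw [not_le] at hc
      refine ⟨by omega, ?_⟩
      push_cast
      nlinarith

/-- The conjecture for `m = 2`. -/
theorem conj_two (hUnf : StUnf) (hNn : StNn) (hHalf : StHalf) (hUpj : StUpj) (hLoa : StLoa)
    (hLa0 : StLa0) (hLow : StLowX) : aS 2 = -(1 / 3) ↔ Bb ≤ 2 / 5 := by
  have hB1 := Bb_le_half hNn hHalf
  have hB0 := Bb_nonneg hNn hHalf
  constructor
  · intro h
    by_contra hc
    rw [not_le] at hc
    have h1 := aS_eq hUnf hNn hHalf hUpj hLoa hLa0 hLow (m := 2) (j := 2) (by norm_num)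
      (by norm_num) (by norm_num) (by push_cast; linarith) (Or.inr (by push_cast; linarith))
    rw [h] at h1
    unfold vb qr at h1
    norm_num at h1
    have h3 : (2 + Bb) ≠ 0 := by linarith
    have h2 : (5 * Bb - 2) ^ 2 = 0 := by
      field_simp at h1
      nlinarith
    have h4 : 5 * Bb - 2 = 0 := by
      exact pow_eq_zero_iff (two_ne_zero) |>.1 h2
    linarith
  · intro h
    have h1 := aS_eq hUnf hNn hHalf hUpj hLoa hLa0 hLow (m := 2) (j := 3) (by norm_num)
      (by norm_num) (by norm_num) (by push_cast; linarith) (Or.inl rfl)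
    rw [h1]
    unfold vb
    norm_num

/-- The conjecture for `m = 3`. -/
theorem conj_three (hUnf : StUnf) (hNn : StNn) (hHalf : StHalf) (hUpj : StUpj) (hLoa : StLoa)
    (hLa0 : StLa0) (hLow : StLowX) : aS 3 ≤ -(1 / 2) ↔ Bb ≤ 2 / 7 := by
  have hB1 := Bb_le_half hNn hHalf
  have hB0 := Bb_nonneg hNn hHalf
  constructor
  · intro h
    by_contra hc
    rw [not_le] at hc
    have h3 : 0 < 2 + Bb := by linarith
    rcases le_or_gt Bb (2 / 5) with h5 | h5
    · have h1 := aS_eq hUnf hNn hHalf hUpj hLoa hLa0 hLow (m := 3) (j := 3) (by norm_num)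
        (by norm_num) (by norm_num) (by push_cast; linarith) (Or.inr (by push_cast; linarith))
      rw [h1] at h
      unfold vb qr at h
      norm_num at h
      have h2 : 0 < (7 * Bb - 2) ^ 2 := by
        have : 0 < 7 * Bb - 2 := by linarith
        positivity
      rw [div_pow] at h
      have h6 : (-1 + Bb) + (2 / 3 - Bb) * ((2 - Bb) ^ 2 / (2 + Bb) ^ 2) + 1 / 2
          = (7 * Bb - 2) ^ 2 / (6 * (2 + Bb) ^ 2) := by
        field_simp
        ring
      have h7 : 0 < (7 * Bb - 2) ^ 2 / (6 * (2 + Bb) ^ 2) := by positivity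
      linarith
    · have h1 := aS_eq hUnf hNn hHalf hUpj hLoa hLa0 hLow (m := 3) (j := 2) (by norm_num)
        (by norm_num) (by norm_num) (by push_cast; linarith) (Or.inr (by push_cast; linarith))
      rw [h1] at h
      unfold vb qr at h
      norm_num at h
      rw [← pow_mul, div_pow] at h
      norm_num at h
      have h6 : (-1 + Bb) + (1 - Bb) * ((2 - Bb) ^ 4 / (2 + Bb) ^ 4) + 1 / 2
          = ((Bb - 1 / 2) * (2 + Bb) ^ 4 + (1 - Bb) * (2 - Bb) ^ 4) / (2 + Bb) ^ 4 := by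
        field_simp
        ring
      have h7 : 0 < (Bb - 1 / 2) * (2 + Bb) ^ 4 + (1 - Bb) * (2 - Bb) ^ 4 := by
        obtain ⟨x, hx⟩ : ∃ x, x = Bb - 2 / 5 := ⟨_, rfl⟩
        have hx0 : 0 < x := by linarith
        have hx1 : x ≤ 1 / 10 := by linarith
        have hBx : Bb = x + 2 / 5 := by linarith
        rw [hBx]
        nlinarith [mul_pos hx0 hx0, mul_pos (mul_pos hx0 hx0) hx0,
          mul_pos (mul_pos hx0 hx0) (mul_pos hx0 hx0)]
      have h8 : 0 < ((Bb - 1 / 2) * (2 + Bb) ^ 4 + (1 - Bb) * (2 - Bb) ^ 4) / (2 + Bb) ^ 4 := by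
        positivity
      linarith
  · intro h
    have h1 := aS_eq hUnf hNn hHalf hUpj hLoa hLa0 hLow (m := 3) (j := 4) (by norm_num)
      (by norm_num) (by norm_num) (by push_cast; linarith) (Or.inl rfl)
    rw [h1]
    unfold vb
    norm_num

end Pool.Agent.Helper51.LT
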