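import Pool.Agent.Helper51.LT.M_FIN

/-!
# Project LT: the exponent `B_b(1)` with an arbitrary bound, monotonicity of admissibility
-/

set_option autoImplicit false

namespace Pool.Agent.Helper51.LT

open Complex MeasureTheory Set Metric Filter Topology
open scoped Real ENNReal
open Pool.Agent.Helper60.Rel (LH tc Admissible ClassS LogData om th)

/-- scaling a bounded univalent function -/
theorem Bd_iff (β : ℝ) : Bd β ↔ ∀ g : ℂ → ℂ,
    (DifferentiableOn ℂ g (ball 0 1) ∧ InjOn g (ball 0 1) ∧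
      ∃ M : ℝ, ∀ z ∈ ball (0 : ℂ) 1, ‖g z‖ ≤ M) →
    ∃ C : ℝ, ∀ r : ℝ, 0 < r → r < 1 →
      (∫ t in (0 : ℝ)..(2 * π), ‖deriv g (r * exp (t * I))‖) ≤ C * (1 - r) ^ (-β) := by
  have hcm : ∀ (r t : ℝ), circleMap 0 r t = r * exp (t * I) := by
    intro r t; simp [circleMap]
  constructor
  · intro h g ⟨hg1, hg2, M, hM⟩
    set K : ℝ := max M 1 with hK
    have hK1 : 1 ≤ K := le_max_right _ _
    have hK0 : 0 < K := by linarith
    have hKc : (K : ℂ) ≠ 0 := by exact_mod_cast hK0.ne'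
    have hbu : BU (fun z => g z / K) := by
      refine ⟨⟨hg1.div_const _, ?_⟩, ?_⟩
      · intro z hz w hw hzw
        have h1 : g z / (K : ℂ) = g w / (K : ℂ) := hzw
        exact hg2 hz hw ((div_left_inj' hKc).1 h1)
      · intro z hz
        rw [norm_div, Complex.norm_real, Real.norm_eq_abs, abs_of_pos hK0, div_le_one hK0]
        exact (hM z hz).trans (le_max_left _ _)
    obtain ⟨C, hC⟩ := h _ hbu
    refine ⟨K * C, fun r h0 h1 => ?_⟩
    have h2 := hC r h0 h1
    unfold IM at h2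
    have h3 : ∀ t : ℝ, ‖deriv (fun z => g z / (K : ℂ)) (circleMap 0 r t)‖
        = ‖deriv g (r * exp (t * I))‖ / K := by
      intro t
      rw [deriv_div_const, norm_div, Complex.norm_real, Real.norm_eq_abs, abs_of_pos hK0, hcm]
    simp only [h3] at h2
    rw [intervalIntegral.integral_div, div_le_iff₀ hK0] at h2
    calc _ ≤ C * (1 - r) ^ (-β) * K := h2
      _ = _ := by ring
  · intro h g hg
    obtain ⟨C, hC⟩ := h g ⟨hg.1.1, hg.1.2, 1, hg.2⟩
    refine ⟨C, fun r h0 h1 => ?_⟩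
    unfold IM
    simp only [hcm]
    exact hC r h0 h1

theorem Admissible.mono {m : ℕ} {α α' : ℝ} (h : Admissible m α) (hα : α ≤ α') :
    Admissible m α' := by
  intro f hf k hk
  obtain ⟨K, hK⟩ := h f hf k hk
  refine ⟨|K|, fun n hn => ?_⟩
  obtain ⟨c, h0, hm, hj⟩ := hK n hn
  refine ⟨c, h0, hm, fun j hjk => (hj j hjk).trans ?_⟩
  have hn1 : (1 : ℝ) ≤ n := by exact_mod_cast hn
  have h2 : (n : ℝ) ^ α ≤ (n : ℝ) ^ α' := Real.rpow_le_rpow_of_exponent_le hn1 hα
  have h3 : 0 ≤ (n : ℝ) ^ α := Real.rpow_nonneg (by linarith) _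
  calc K * (n : ℝ) ^ α ≤ |K| * (n : ℝ) ^ α := mul_le_mul_of_nonneg_right (le_abs_self K) h3
    _ ≤ |K| * (n : ℝ) ^ α' := mul_le_mul_of_nonneg_left h2 (abs_nonneg K)

/-- the set of admissible exponents is a half line -/
theorem aS_spec (hUnf : StUnf) (hNn : StNn) (hHalf : StHalf) (hUpj : StUpj) (hLoa : StLoa)
    (hLa0 : StLa0) {m : ℕ} (hm : 1 ≤ m) :
    (∀ α, aS m < α → Admissible m α) ∧ (∀ α, α < aS m → ¬ Admissible m α) := by
  have hlow : ∀ α ∈ {α : ℝ | Admissible m α}, -(1 - Bb) ≤ α := by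
    intro α hα
    by_contra hc
    exact not_adm hNn hLoa hLa0 hm (not_le.1 hc) hα
  have hne : {α : ℝ | Admissible m α}.Nonempty :=
    ⟨_, adm hUnf hNn hHalf hUpj hm le_rfl (by omega)
      (by have := Bb_le_half hNn hHalf; push_cast; linarith) one_pos⟩
  constructor
  · intro α hα
    obtain ⟨α', hα', hlt⟩ := exists_lt_of_csInf_lt hne hα
    exact Admissible.mono hα' hlt.le
  · intro α hα hadm
    have : aS m ≤ α := csInf_le ⟨_, hlow⟩ hadm
    linarith

end Pool.Agent.Helper51.LT
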