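import Pool.Agent.Helper51.LT.All
import Pool.Agent.Helper5.SR.Asm

/-!
# Project LT + SR: the exact value
-/

set_option autoImplicit false

namespace Pool.Agent.Helper51.LT

open Complex MeasureTheory Set Metric Filter Topology
open scoped Real ENNReal
open Pool.Agent.Helper60.Rel (LH tc Admissible ClassS LogData om th)

theorem zLowX : StLowX := Pool.Agent.Helper5.SRA.lowX

theorem z_exact {m : ℕ} (hm : 1 ≤ m) :
    ∃ j : ℕ, IsGreatest {i : ℕ | 1 ≤ i ∧ i ≤ m + 1 ∧ (2 * (i : ℝ) - 1) * Bb ≤ 2} j ∧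
      aS m = -1 + Bb + (2 / j - Bb) * ((2 - Bb) / (2 + Bb)) ^ (2 * (m + 1 - j)) := by
  classical
  obtain ⟨j, h1, h2, h3, h4⟩ := exists_idx zNn zHalf m
  have hB0 := zBb_nonneg
  -- the greatest index
  have hgr : ∃ j : ℕ, IsGreatest {i : ℕ | 1 ≤ i ∧ i ≤ m + 1 ∧ (2 * (i : ℝ) - 1) * Bb ≤ 2} j := by
    have hfin : {i : ℕ | 1 ≤ i ∧ i ≤ m + 1 ∧ (2 * (i : ℝ) - 1) * Bb ≤ 2}.Finite :=
      (Set.finite_Iic (m + 1)).subset fun i hi => hi.2.1
    have hne : {i : ℕ | 1 ≤ i ∧ i ≤ m + 1 ∧ (2 * (i : ℝ) - 1) * Bb ≤ 2}.Nonempty := ⟨j, h1, h2, h3⟩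
    exact ⟨_, Nat.sSup_mem hne hfin.bddAbove, fun i hi => le_csSup hfin.bddAbove hi⟩
  obtain ⟨i, hi⟩ := hgr
  refine ⟨i, hi, ?_⟩
  have hi4 : i = m + 1 ∨ 2 ≤ (2 * (i : ℝ) + 1) * Bb := by
    rcases hi.1.2.1.eq_or_lt with h | h
    · exact Or.inl h
    · right
      by_contra hc
      rw [not_le] at hc
      have : i + 1 ≤ i := hi.2 ⟨by omega, by omega, by push_cast; nlinarith⟩
      omega
  have h5 := aS_eq zUnf zNn zHalf zUpj zLoa zLa0 zLowX hm hi.1.1 hi.1.2.1 hi.1.2.2 hi4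
  rw [h5]
  unfold vb qr
  rw [← pow_mul]

theorem z_two : aS 2 = -(1 / 3) ↔ Bb ≤ 2 / 5 := conj_two zUnf zNn zHalf zUpj zLoa zLa0 zLowX

theorem z_three : (∀ ε : ℝ, 0 < ε → Admissible 3 (-(1 / 2) + ε)) ↔ Bb ≤ 2 / 7 := by
  rw [← conj_three zUnf zNn zHalf zUpj zLoa zLa0 zLowX]
  obtain ⟨h1, h2⟩ := z_spec (m := 3) (by norm_num)
  constructor
  · intro h
    by_contra hc
    rw [not_le] at hc
    obtain ⟨α, hα1, hα2⟩ := exists_between hc
    have := h (α + 1 / 2) (by linarith)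
    rw [show -(1 / 2) + (α + 1 / 2) = α by ring] at this
    exact h2 α hα2 this
  · intro h ε hε
    exact h1 _ (by linarith)

end Pool.Agent.Helper51.LT
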